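import Pool.Agent.H149Z.PM.Defs

/-! Shared elementary lemmas on `PSys`. -/

set_option autoImplicit false

namespace Pool.Agent.H149Z.PM

open Pool.Agent.H149Z.SU

variable {B : Type}

theorem PSys.one (X : PSys B) (b : B) : 1 ≤ (X.τ b).length := by
  by_cases h : X.G b
  · exact le_trans (by norm_num) (X.two b h)
  · rw [X.fix b h]; simp

theorem PSys.mono (X : PSys B) : StrictMono X.c := X.parse.strictMono X.one

theorem PSys.lb (X : PSys B) {i j : ℤ} (h : i ≤ j) : X.c i + (j - i) ≤ X.c j := by
  have := X.parse.le_add X.one i (j - i) (by omega)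
  rw [show i + (j - i) = j by ring] at this
  simpa using this

theorem PBd.ub {X : PSys B} {Q K : ℕ} (G : PBd X Q K) {i j : ℤ} (h : i ≤ j) :
    X.c j ≤ X.c i + K * (j - i) := by
  have := X.parse.add_le G.len_le i (j - i) (by omega)
  rwa [show i + (j - i) = j by ring] at this

theorem PBd.two_le {X : PSys B} {Q K : ℕ} (G : PBd X Q K) : 2 ≤ K :=
  (X.two _ X.G0).trans (G.len_le _)

theorem PSys.idx (X : PSys B) (t : ℤ) : ∃ i, X.c i ≤ t ∧ t < X.c (i + 1) :=
  X.parse.exists_idx X.one t

theorem PSys.cut_at (X : PSys B) {i j m : ℤ} (hA : Agr X.V X.V i j m)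
    {x y : ℤ} (h1 : i ≤ x) (h2 : x ≤ i + m) (h3 : y - j = x - i) :
    X.c x - X.c i = X.c y - X.c j := X.parse.cut_at X.parse hA h1 h2 h3

theorem PSys.agr (X : PSys B) {i j m : ℤ} (hA : Agr X.V X.V i j m) :
    Agr X.V X.V (X.c i) (X.c j) (X.c (i + m) - X.c i) := X.parse.agr X.parse X.one hA

theorem PSys.step_fix (X : PSys B) {y : ℤ} (h : ¬ X.G (X.V y)) :
    X.c (y + 1) = X.c y + 1 ∧ X.V (X.c y) = X.V y := by
  have h1 := X.parse.step y
  have h2 := X.parse.val y 0 (X.one _)
  simp only [X.fix _ h, List.length_singleton, Nat.cast_one, Nat.cast_zero, add_zero,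
    List.getElem_cons_zero] at h1 h2
  exact ⟨h1, h2⟩

theorem PSys.step_G (X : PSys B) {y : ℤ} (h : X.G (X.V y)) : X.c y + 2 ≤ X.c (y + 1) := by
  have h1 := X.parse.step y
  have h2 := X.two _ h
  omega

/-- On an interval of fixed letters the cut function is a translation. -/
theorem PSys.Fx.cut {X : PSys B} {a b : ℤ} (h : X.Fx a b) {t : ℤ} (h1 : a ≤ t) (h2 : t ≤ b) :
    X.c t = X.c a + (t - a) := by
  obtain ⟨k, hk⟩ := Int.eq_ofNat_of_zero_le (show 0 ≤ t - a by omega)
  obtain rfl : t = a + k := by omega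
  clear hk
  induction k with
  | zero => simp
  | succ k ih =>
    have := ih (by omega) (by omega)
    have h3 := (X.step_fix (h (a + k) (by omega) (by omega))).1
    push_cast
    rw [← add_assoc, h3]
    omega

theorem PSys.Fx.agr {X : PSys B} {a b : ℤ} (h : X.Fx a b) : Agr X.V X.V (X.c a) a (b - a) := by
  intro t h0 ht
  have h1 := h.cut (t := a + t) (by omega) (by omega)
  rw [show X.c a + t = X.c (a + t) by omega]
  exact (X.step_fix (h _ (by omega) (by omega))).2

theorem PSys.Fx.img {X : PSys B} {a b : ℤ} (h : X.Fx a b) : X.Fx (X.c a) (X.c b) := by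
  intro t h1 h2
  have hab : a < b := X.mono.lt_iff_lt.mp (by omega)
  have h3 := h.cut (t := b) (by omega) le_rfl
  rw [h.agr.at (x := t) (y := t - X.c a + a) h1 (by omega) (by omega)]
  exact h _ (by omega) (by omega)

theorem PSys.Fx.mono {X : PSys B} {a b a' b' : ℤ} (h : X.Fx a b) (h1 : a ≤ a') (h2 : b' ≤ b) :
    X.Fx a' b' := fun t x y => h t (by omega) (by omega)

/-- A periodic interval that contains a full period of fixed letters consists of fixed letters. -/
theorem PSys.fx_of_per (X : PSys B) {Q a b a' : ℤ} (hQ : 1 ≤ Q) (hp : Per X.V Q a b)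
    (h : X.Fx a' (a' + Q)) (h1 : a ≤ a') (h2 : a' + Q ≤ b) : X.Fx a b := by
  intro t x y
  have hm := Int.emod_nonneg (t - a') (show Q ≠ 0 by omega)
  have hl := Int.emod_lt_of_pos (t - a') (show 0 < Q by omega)
  have he := Int.emod_add_mul_ediv (t - a') Q
  have key : X.V t = X.V (a' + (t - a') % Q) := by
    rcases le_total 0 ((t - a') / Q) with hd | hd
    · obtain ⟨k, hk⟩ := Int.eq_ofNat_of_zero_le hd
      have := hp.mul (by omega) k (a' + (t - a') % Q) (by omega) (by rw [← hk]; nlinarith)
      rw [this]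
      congr 1
      rw [← hk]
      nlinarith
    · obtain ⟨k, hk⟩ := Int.eq_ofNat_of_zero_le (show 0 ≤ -((t - a') / Q) by omega)
      have := hp.mul (by omega) k t x (by rw [← hk]; nlinarith)
      rw [this]
      congr 1
      rw [← hk]
      nlinarith
  rw [key]
  exact h _ (by omega) (by omega)

theorem PSys.iter_mono (X : PSys B) (k : ℕ) : StrictMono X.c^[k] := X.mono.iterate k

theorem PSys.iter_lb (X : PSys B) (k : ℕ) {i j : ℤ} (h : i ≤ j) :
    X.c^[k] i + (j - i) ≤ X.c^[k] j := by
  induction k with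
  | zero => simp
  | succ k ih =>
    rw [Function.iterate_succ_apply', Function.iterate_succ_apply']
    have := X.lb (show X.c^[k] i ≤ X.c^[k] j by omega)
    omega

/-- Iterated images of equal words. -/
theorem PSys.iter_agr (X : PSys B) (k : ℕ) {i j m : ℤ} (hA : Agr X.V X.V i j m) :
    Agr X.V X.V (X.c^[k] i) (X.c^[k] j) (X.c^[k] (i + m) - X.c^[k] i) ∧
    ∀ x y, i ≤ x → x ≤ i + m → y - j = x - i → X.c^[k] x - X.c^[k] i = X.c^[k] y - X.c^[k] j := by
  induction k with
  | zero => exact ⟨by simpa using hA, fun x y _ _ h => by simpa using h.symm⟩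
  | succ k ih =>
    simp only [Function.iterate_succ_apply']
    constructor
    · have := X.agr ih.1
      rwa [show X.c^[k] i + (X.c^[k] (i + m) - X.c^[k] i) = X.c^[k] (i + m) by ring] at this
    · intro x y h1 h2 h3
      have a1 := (X.iter_mono k).monotone h1
      have a2 := (X.iter_mono k).monotone h2
      exact X.cut_at ih.1 a1 (by omega) (ih.2 x y h1 h2 h3).symm

theorem PSys.Fx.iter {X : PSys B} {a b : ℤ} (h : X.Fx a b) (hab : a ≤ b) (k : ℕ) :
    X.Fx (X.c^[k] a) (X.c^[k] b) ∧ X.c^[k] b = X.c^[k] a + (b - a) ∧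
      Agr X.V X.V (X.c^[k] a) a (b - a) := by
  induction k with
  | zero => exact ⟨h, by simp, Agr.refl _ _ _⟩
  | succ k ih =>
    simp only [Function.iterate_succ_apply']
    have h1 := ih.1.cut (t := X.c^[k] b) (by omega) le_rfl
    refine ⟨ih.1.img, by omega, Agr.trans ?_ ih.2.2⟩
    exact ih.1.agr.sub le_rfl (by omega) (by omega)

/-- Every growing position has a growing descendant at every level. -/
theorem PSys.exists_G_iter (X : PSys B) {y : ℤ} (h : X.G (X.V y)) (k : ℕ) :
    ∃ z, X.c^[k] y ≤ z ∧ z < X.c^[k] (y + 1) ∧ X.G (X.V z) := by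
  induction k with
  | zero => exact ⟨y, by simp, by simp, h⟩
  | succ k ih =>
    obtain ⟨z, h1, h2, h3⟩ := ih
    simp only [Function.iterate_succ_apply']
    have a1 := X.mono.monotone h1
    have a2 := X.mono.monotone (show z + 1 ≤ X.c^[k] (y + 1) by omega)
    have a3 := X.f_lt z h3
    exact ⟨_, by omega, by omega, X.f_G z h3⟩

theorem PSys.iter_grow (X : PSys B) {y : ℤ} (h : X.G (X.V y)) (k : ℕ) :
    X.c^[k] y + k + 1 ≤ X.c^[k] (y + 1) := by
  induction k with
  | zero => simp
  | succ k ih =>
    obtain ⟨z, h1, h2, h3⟩ := X.exists_G_iter h k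
    simp only [Function.iterate_succ_apply']
    have a1 := X.lb h1
    have a2 := X.lb (show z + 1 ≤ X.c^[k] (y + 1) by omega)
    have a3 := X.step_G h3
    push_cast
    omega

/-- The mirror image. -/
def PSys.rev (X : PSys B) : PSys B where
  τ := fun a => (X.τ a).reverse
  V := fun t => X.V (-1 - t)
  c := fun i => -X.c (-i)
  G := X.G
  fo := X.lo
  lo := X.fo
  parse := by
    constructor
    · intro i
      have := X.parse.step (-1 - i)
      rw [show -1 - i + 1 = -i by ring] at this
      rw [show -(i + 1) = -1 - i by ring, List.length_reverse]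
      omega
    · intro i j hj
      have h1 := X.parse.step (-1 - i)
      rw [show -1 - i + 1 = -i by ring] at h1
      rw [List.length_reverse] at hj
      rw [List.getElem_reverse, ← X.parse.val]
      congr 1
      omega
  fix := fun b h => by rw [X.fix b h]; simp
  two := fun g h => by simpa using X.two g h
  f_lt := fun y h => by
    have := X.l_le (-1 - y) h
    rw [show -1 - y + 1 = -y by ring] at this
    rw [show -(y + 1) = -1 - y by ring]
    omega
  f_G := fun y h => by
    have := X.l_G (-1 - y) h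
    rw [show -1 - y + 1 = -y by ring] at this
    convert this using 2
    ring
  f_min := fun y t h h1 h2 => by
    refine X.l_max (-1 - y) (-1 - t) h ?_ ?_ <;> rw [show -1 - y + 1 = -y by ring] <;> omega
  l_le := fun y h => by
    have := X.f_lt (-1 - y) h
    rw [show -1 - y + 1 = -y by ring] at this
    rw [show -(y + 1) = -1 - y by ring]
    omega
  l_G := fun y h => by
    have := X.f_G (-1 - y) h
    rw [show -(y + 1) = -1 - y by ring]
    convert this using 2
    ring
  l_max := fun y t h h1 h2 => by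
    rw [show -(y + 1) = -1 - y by ring] at h1 h2
    refine X.f_min (-1 - y) (-1 - t) h ?_ ?_ <;> omega
  f_idem := fun y z h hz => by
    have := X.l_idem (-1 - y) (-1 - z) h (by rw [show -1 - y + 1 = -y by ring]; omega)
    rw [show -1 - z + 1 = -z by ring] at this
    convert this using 2
    ring
  l_idem := fun y z h hz => by
    rw [show -(y + 1) = -1 - y by ring] at hz
    have := X.f_idem (-1 - y) (-1 - z) h (by omega)
    rw [show -(z + 1) = -1 - z by ring]
    convert this using 2
    ring
  single := fun y z h h1 h2 => by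
    rw [show -(y + 1) = -1 - y by ring] at h2
    have := X.single (-1 - y) (-1 - z) h (by omega)
      (by rw [show -1 - y + 1 = -y by ring]; omega)
    rw [show -1 - z + 1 = -z by ring] at this
    rw [show -(z + 1) = -1 - z by ring]
    omega
  c0 := by simp [X.c0]
  G0 := by simpa using X.G1
  G1 := by simpa using X.G0
  infR := fun i => by
    obtain ⟨j, h1, h2⟩ := X.infL (-1 - i)
    exact ⟨-1 - j, by omega, by simpa using h2⟩
  infL := fun i => by
    obtain ⟨j, h1, h2⟩ := X.infR (-1 - i)
    exact ⟨-1 - j, by omega, by simpa using h2⟩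

theorem PSys.rev_V (X : PSys B) (t : ℤ) : X.rev.V t = X.V (-1 - t) := rfl

theorem PSys.rev_c (X : PSys B) (t : ℤ) : X.rev.c t = -X.c (-t) := rfl

theorem PSys.rev_iter (X : PSys B) (k : ℕ) (t : ℤ) : X.rev.c^[k] t = -X.c^[k] (-t) := by
  induction k with
  | zero => simp
  | succ k ih => simp only [Function.iterate_succ_apply', ih, PSys.rev_c, neg_neg]

theorem PSys.rev_agr (X : PSys B) {p q n : ℤ} :
    Agr X.rev.V X.rev.V p q n ↔ Agr X.V X.V (-p - n) (-q - n) n := agr_rev

theorem PSys.rev_per (X : PSys B) {π a b : ℤ} : Per X.rev.V π a b ↔ Per X.V π (-b) (-a) := per_rev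

theorem PSys.rev_fx (X : PSys B) {a b : ℤ} : X.rev.Fx a b ↔ X.Fx (-b) (-a) := by
  constructor
  · intro h t x y
    have := h (-1 - t) (by omega) (by omega)
    rwa [PSys.rev_V, show -1 - (-1 - t) = t by ring] at this
  · intro h t x y
    exact h (-1 - t) (by omega) (by omega)

theorem PBd.rev {X : PSys B} {Q K : ℕ} (G : PBd X Q K) : PBd X.rev Q K where
  Qpos := G.Qpos
  len_le := fun a => by simpa [PSys.rev] using G.len_le a
  dvd_fo := G.dvd_lo
  dvd_lo := G.dvd_fo

theorem PGood.rev {X : PSys B} {Q K : ℕ} (G : PGood X Q K) : PGood X.rev Q K where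
  toPBd := G.toPBd.rev
  sync := by
    intro p q n h
    rw [PSys.rev_agr] at h
    rcases G.sync _ _ _ h with ⟨i, j, m, h0, h1, h2, h3, h4, h5, h6⟩ | h1
    · left
      have e := X.cut_at h6 (x := i + m) (y := j + m) (by omega) (by omega) (by omega)
      refine ⟨-(i + m), -(j + m), m, h0, ?_, ?_, ?_, ?_, ?_, ?_⟩
      · simp only [PSys.rev_c, neg_neg]; omega
      · simp only [PSys.rev_c, neg_neg]; omega
      · simp only [PSys.rev_c, neg_neg]; omega
      · simp only [PSys.rev_c, show -(-(i + m) + m) = i by ring]; omega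
      · simp only [PSys.rev_c, show -(-(i + m) + m) = i by ring]; omega
      · rw [PSys.rev_agr]
        convert h6 using 1 <;> ring
    · right
      rw [PSys.rev_per]
      exact h1.mono (by omega) (by omega)
  per_img := by
    intro i j hm h
    rw [PSys.rev_per] at h ⊢
    simpa only [PSys.rev_c, neg_neg] using G.per_img (-j) (-i) (by omega) h
  per_pre := by
    intro i j h
    rw [PSys.rev_per] at h ⊢
    simp only [PSys.rev_c, neg_neg] at h
    exact (G.per_pre (-j) (-i) h).mono (by omega) (by omega)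
  delayL := by
    intro i j hne h'
    rw [PSys.rev_agr] at h'
    simp only [PSys.rev_c, PSys.rev_V] at hne h'
    refine G.delayR (-i) (-j) ?_ ?_
    · rwa [show -1 - (i - 1) = -i by ring, show -1 - (j - 1) = -j by ring] at hne
    · convert h' using 1 <;> ring
  delayR := by
    intro i j hne h'
    rw [PSys.rev_agr] at h'
    simp only [PSys.rev_c, PSys.rev_V] at hne h'
    refine G.delayL (-i) (-j) ?_ ?_
    · rwa [show -1 - i = -i - 1 by ring, show -1 - j = -j - 1 by ring] at hne
    · convert h' using 1 <;> ring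

theorem LE1.mono {X : PSys B} {Q K5 K5' : ℕ} (h : LE1 X Q K5) (hK : K5 ≤ K5') : LE1 X Q K5' := by
  intro R
  obtain ⟨N, hN⟩ := h R
  exact ⟨N, fun p q t x a b c d e f => (hN p q t x a b c d e f).mono (by omega) le_rfl⟩

theorem exists_pers {X : PSys B} {Q K K5 : ℕ} (G : PGood X Q K) (h : LE1 X Q K5) :
    ∃ N0 : ℕ, ∀ N' : ℕ, N0 ≤ N' → Pers X Q K K5 N' := by
  obtain ⟨N, hN⟩ := h (K * K5 + K)
  refine ⟨N + K, fun N' hN' p q x e hA hx hP h0 he hA' hne => ?_⟩
  have a1 := G.per_img (p + K5) x (by omega) hP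
  have a2 := G.ub (show p ≤ p + K5 by omega)
  rw [show p + K5 - p = K5 by ring] at a2
  have a3 := X.lb (show p ≤ p + K5 by omega)
  have a4 := X.lb (show p + K5 ≤ x by omega)
  have a5 := X.agr hA
  rw [show p + (x - p) = x by ring] at a5
  refine hN (X.c p - e) (X.c q - e) (X.c (p + K5) - (X.c p - e)) (X.c x) (by omega)
    (by push_cast; omega) (by omega) ?_ hne (a1.mono (by omega) le_rfl)
  intro t x y
  by_cases ht : t < e
  · exact hA' t x ht
  · exact a5.at (by omega) (by omega) (by omega)

end Pool.Agent.H149Z.PM
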