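import Pool.Agent.H149Z.SU.Basic

/-! Definitions for the proof of `S07589` (`s(n) = Θ(p(n)/n)` for purely morphic words). -/

set_option autoImplicit false

namespace Pool.Agent.H149Z.PM

open Pool.Agent.H149Z.SU

/-- The two hypotheses of the frozen statement. -/
def Hyp {A : Type} (σ : A → List A) (u : ℕ → A) : Prop :=
  (∀ n i, i < ((fun w : List A => w.flatMap σ)^[n] [u 0]).length →
      ((fun w : List A => w.flatMap σ)^[n] [u 0])[i]? = some (u i)) ∧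
  (∀ m, ∃ n, m < ((fun w : List A => w.flatMap σ)^[n] [u 0]).length)

/-- A growing letter. -/
def Grow {A : Type} (σ : A → List A) (b : A) : Prop :=
  ∀ m, ∃ n, m < ((fun w : List A => w.flatMap σ)^[n] [b]).length

/-- `u` has arbitrarily long factors made of non-growing letters. -/
def Pushy {A : Type} (σ : A → List A) (u : ℕ → A) : Prop :=
  ∀ R : ℕ, ∃ i : ℕ, ∀ j < R, ¬ Grow σ (u (i + j))

def EvPer {A : Type} (u : ℕ → A) : Prop := ∃ N p : ℕ, 0 < p ∧ ∀ n, N ≤ n → u (n + p) = u n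

/-- Factor complexity, written as in the frozen statement. -/
noncomputable def pf {A : Type} (u : ℕ → A) (n : ℕ) : ℕ :=
  (Set.range (fun i : ℕ => fun j : Fin n => u (i + j.val))).ncard

/-- `u` extended to the left by a new letter. -/
def ext {A : Type} (u : ℕ → A) : ℤ → Option A := fun t => if t < 0 then none else some (u t.toNat)

/-- A bi-infinite fixed point of a morphism whose non-growing letters are fixed.  `G` is the set of
growing letters, `fo g` (`lo g`) the number of letters of `τ g` before its first (after its last)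
growing letter. -/
structure PSys (B : Type) where
  τ : B → List B
  V : ℤ → B
  c : ℤ → ℤ
  G : B → Prop
  fo : B → ℕ
  lo : B → ℕ
  parse : IsParse τ V c V
  fix : ∀ b, ¬ G b → τ b = [b]
  two : ∀ g, G g → 2 ≤ (τ g).length
  f_lt : ∀ y, G (V y) → c y + fo (V y) < c (y + 1)
  f_G : ∀ y, G (V y) → G (V (c y + fo (V y)))
  f_min : ∀ y t, G (V y) → c y ≤ t → t < c y + fo (V y) → ¬ G (V t)
  l_le : ∀ y, G (V y) → c y ≤ c (y + 1) - 1 - lo (V y)
  l_G : ∀ y, G (V y) → G (V (c (y + 1) - 1 - lo (V y)))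
  l_max : ∀ y t, G (V y) → c (y + 1) - 1 - lo (V y) < t → t < c (y + 1) → ¬ G (V t)
  f_idem : ∀ y z, G (V y) → z = c y + fo (V y) → V (c z + fo (V z)) = V z
  l_idem : ∀ y z, G (V y) → z = c (y + 1) - 1 - lo (V y) → V (c (z + 1) - 1 - lo (V z)) = V z
  single : ∀ y z, G (V y) → z = c y + fo (V y) → z = c (y + 1) - 1 - lo (V y) →
    c z + fo (V z) = c (z + 1) - 1 - lo (V z)
  c0 : c 0 = 0
  G0 : G (V 0)
  G1 : G (V (-1))
  infR : ∀ i, ∃ j, i ≤ j ∧ G (V j)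
  infL : ∀ i, ∃ j, j ≤ i ∧ G (V j)

variable {B : Type}

/-- Position of the first growing letter in the image of position `y`. -/
def PSys.F (X : PSys B) (y : ℤ) : ℤ := X.c y + X.fo (X.V y)

/-- Position of the last growing letter in the image of position `y`. -/
def PSys.L (X : PSys B) (y : ℤ) : ℤ := X.c (y + 1) - 1 - X.lo (X.V y)

/-- No growing letter on `[a, b)`. -/
def PSys.Fx (X : PSys B) (a b : ℤ) : Prop := ∀ t, a ≤ t → t < b → ¬ X.G (X.V t)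

/-- `z < z'` are consecutive growing positions. -/
def PSys.Str (X : PSys B) (z z' : ℤ) : Prop :=
  z < z' ∧ X.G (X.V z) ∧ X.G (X.V z') ∧ X.Fx (z + 1) z'

/-- The stretch between `z` and `z'` has (at least) `k` ancestors that are stretches. -/
def PSys.Old (X : PSys B) : ℕ → ℤ → ℤ → Prop
  | 0, z, z' => X.Str z z'
  | k + 1, z, z' => ∃ y y', X.Old k y y' ∧ z = X.L y ∧ z' = X.F y'

/-- Bounds on the morphism used for the description of the stretches. -/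
structure PBd (X : PSys B) (Q K : ℕ) : Prop where
  Qpos : 1 ≤ Q
  len_le : ∀ b, (X.τ b).length ≤ K
  dvd_fo : ∀ g, X.fo g = 0 ∨ X.fo g ∣ Q
  dvd_lo : ∀ g, X.lo g = 0 ∨ X.lo g ∣ Q

/-- The structure of the stretches of fixed letters: `r^a μ s^a`. -/
structure Age (X : PSys B) (Q K : ℕ) : Prop where
  child : ∀ z z', X.Str z z' → X.Str (X.L z) (X.F z')
  old_str : ∀ k z z', X.Old k z z' → X.Str z z'
  parent : ∀ z z', X.Str z z' → (∃ y, X.c y ≤ z ∧ z' < X.c (y + 1)) ∨ X.Old 1 z z'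
  long_old : ∀ (k : ℕ) z z', X.Str z z' → (K : ℤ) * (2 * k + 1) < z' - z → X.Old k z z'
  shape : ∀ (k : ℕ) z z', X.Old (k + 1) z z' → X.V (X.L z) = X.V z ∧ X.V (X.F z') = X.V z' ∧
    ∃ a : ℕ, k ≤ a ∧ z + 1 + a * X.lo (X.V z) ≤ z' - a * X.fo (X.V z') ∧
      z' - a * X.fo (X.V z') ≤ z + 1 + a * X.lo (X.V z) + 3 * K ∧
      Per X.V Q (X.L z + 1) (X.c (z + 1 + a * X.lo (X.V z))) ∧
      Per X.V Q (X.c (z' - a * X.fo (X.V z'))) (X.F z') ∧
      Per X.V Q (z + 1) (z + 1 + a * X.lo (X.V z)) ∧ Per X.V Q (z' - a * X.fo (X.V z')) z'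
  split : ∀ a b, X.Fx a b → ∃ m, Per X.V Q a (m - 3 * K) ∧ Per X.V Q (m + 3 * K) b

/-- Common preimage of two occurrences, up to `K` letters at both ends. -/
def PSync (X : PSys B) (K : ℕ) (p q n : ℤ) : Prop :=
  ∃ i j m : ℤ, 0 ≤ m ∧ X.c i - p = X.c j - q ∧ p ≤ X.c i ∧ X.c i ≤ p + K ∧
    p + n - K ≤ X.c (i + m) ∧ X.c (i + m) ≤ p + n ∧ Agr X.V X.V i j m

/-- The recognizability package. -/
structure PGood (X : PSys B) (Q K : ℕ) : Prop extends PBd X Q K where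
  sync : ∀ p q n : ℤ, Agr X.V X.V p q n → PSync X K p q n ∨ Per X.V Q (p + K) (p + n - K)
  per_img : ∀ i j : ℤ, i + K ≤ j → Per X.V Q i j → Per X.V Q (X.c i) (X.c j)
  per_pre : ∀ i j : ℤ, Per X.V Q (X.c i) (X.c j) → Per X.V Q (i + K) (j - K)
  delayL : ∀ i j : ℤ, X.V (i - 1) ≠ X.V (j - 1) → ¬ Agr X.V X.V (X.c i - K) (X.c j - K) K
  delayR : ∀ i j : ℤ, X.V i ≠ X.V j → ¬ Agr X.V X.V (X.c i) (X.c j) K

/-- A long run inside a left special word starts within `K5` letters. -/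
def LE1 (X : PSys B) (Q K5 : ℕ) : Prop :=
  ∀ R : ℕ, ∃ N : ℕ, ∀ p q t x : ℤ, 0 ≤ t → t ≤ R → p + t + N ≤ x → Agr X.V X.V p q (x - p) →
    X.V (p - 1) ≠ X.V (q - 1) → Per X.V Q (p + t) x → Per X.V Q (p + K5) x

/-- Persistence of the periodic mode of a left fork. -/
def Pers (X : PSys B) (Q K K5 N' : ℕ) : Prop :=
  ∀ p q x e : ℤ, Agr X.V X.V p q (x - p) → p + K5 + N' ≤ x → Per X.V Q (p + K5) x → 0 ≤ e →
    e ≤ K → Agr X.V X.V (X.c p - e) (X.c q - e) e → X.V (X.c p - e - 1) ≠ X.V (X.c q - e - 1) →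
    Per X.V Q (X.c p - e + K5) (X.c x)

/-- The evolution of a left fork between two occurrences during `k` steps. -/
structure LChain (X : PSys B) (K k : ℕ) (p q : ℕ → ℤ) : Prop where
  fork : ∀ i, i ≤ k → X.V (p i - 1) ≠ X.V (q i - 1)
  step : ∀ i, i < k → ∃ e : ℕ, e ≤ K ∧ p (i + 1) = X.c (p i) - e ∧ q (i + 1) = X.c (q i) - e ∧
    Agr X.V X.V (p (i + 1)) (q (i + 1)) e

/-- Escape lemma: a fork leaves the image of a deep context only through a long run of fixed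
letters. -/
def Esc (X : PSys B) (Q K K5 D1 : ℕ) : Prop :=
  ∀ L : ℕ, ∃ Ds : ℕ, ∀ (k : ℕ) (p q : ℕ → ℤ), LChain X K k p q → p k < X.c^[k] (p 0 - Ds) →
    ∃ d : ℕ, d ≤ D1 ∧ X.Fx (p 0 - d - L) (p 0 - d) ∧ Per X.V Q (p 0 - d - L) (p 0 - d) ∧
      Per X.V Q (p k + K5) (X.c^[k] (p 0 - d))

/-- A fork does not escape in both branches. -/
def Esc2 (X : PSys B) (K Ds : ℕ) : Prop :=
  ∀ (k : ℕ) (p q : ℕ → ℤ), LChain X K k p q →
    ¬ (p k < X.c^[k] (p 0 - Ds) ∧ q k < X.c^[k] (q 0 - Ds))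

/-- Two long runs of fixed letters at bounded distance. -/
structure DR (X : PSys B) (Q N5 L : ℕ) (a1 b1 a2 b2 : ℤ) : Prop where
  l1 : a1 + L ≤ b1
  g1 : b1 ≤ a2
  g2 : a2 ≤ b1 + N5
  l2 : a2 + L ≤ b2
  f1 : X.Fx a1 b1
  f2 : X.Fx a2 b2
  p1 : Per X.V Q a1 b1
  p2 : Per X.V Q a2 b2

/-- `z1` and `z2` are the letters that break the two runs of a double run on the outside. -/
def DRB (X : PSys B) (Q N5 L : ℕ) (z1 z2 : ℤ) : Prop :=
  ∃ a1 b1 a2 b2, DR X Q N5 L a1 b1 a2 b2 ∧ z1 < a1 ∧ Per X.V Q (z1 + 1) b1 ∧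
    X.V z1 ≠ X.V (z1 + Q) ∧ b2 ≤ z2 ∧ Per X.V Q a2 z2 ∧ X.V z2 ≠ X.V (z2 - Q)

/-- The evolution of three occurrences of one word that branch on both sides. -/
structure FChain (X : PSys B) (K k : ℕ) (p : Fin 3 → ℕ → ℤ) (n : ℕ → ℤ) : Prop where
  com : ∀ i, i ≤ k → ∀ j j', Agr X.V X.V (p j i) (p j' i) (n i)
  forkL : ∀ i, i ≤ k → ∃ j j', X.V (p j i - 1) ≠ X.V (p j' i - 1)
  forkR : ∀ i, i ≤ k → ∃ j j', X.V (p j i + n i) ≠ X.V (p j' i + n i)
  step : ∀ i, i < k → ∃ e1 e2 : ℕ, e1 ≤ K ∧ e2 ≤ K ∧ ∀ j, p j (i + 1) = X.c (p j i) - e1 ∧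
    p j (i + 1) + n (i + 1) = X.c (p j i + n i) + e2

/-- The extension graph of `w` contains a cycle (in the form in which it is used). -/
def Cyc (V : ℤ → B) (w : List B) : Prop :=
  ∀ a0 b0 : B, ∃ p1 p2 p3 : ℤ, w = fac V p1 w.length ∧ w = fac V p2 w.length ∧
    w = fac V p3 w.length ∧ V (p1 - 1) ≠ a0 ∧ V (p1 + w.length) ≠ b0 ∧
    V (p2 - 1) = V (p1 - 1) ∧ V (p2 + w.length) ≠ V (p1 + w.length) ∧
    V (p3 + w.length) = V (p1 + w.length) ∧ V (p3 - 1) ≠ V (p1 - 1)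

end Pool.Agent.H149Z.PM
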