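import Pool.Agent.H149Z.PM.Basic

/-! The statements into which the proof of `S07589` is split. -/

set_option autoImplicit false

namespace Pool.Agent.H149Z.PM

open Pool.Agent.H149Z.SU

/-- Non-pushy case: reduction to the everywhere-growing structure theorem. -/
def S_nonpushy : Prop :=
  ∀ (A : Type) [Fintype A] (σ : A → List A) (u : ℕ → A), Hyp σ u → ¬ Pushy σ u →
    ∃ R : ℕ, LogClass (fun n => (pf u (n + R + 1) : ℝ) - pf u (n + R))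

/-- Pushy case, lower bound. -/
def S_lower : Prop :=
  ∀ (A : Type) [Fintype A] (σ : A → List A) (u : ℕ → A), Hyp σ u → Pushy σ u → ¬ EvPer u →
    ∃ c : ℝ, 0 < c ∧ ∃ N : ℕ, ∀ n : ℕ, N ≤ n → c * n ≤ (pf u (n + 1) : ℝ) - pf u n

/-- Upper bound. -/
def S_upper : Prop :=
  ∀ (A : Type) [Fintype A] (σ : A → List A) (u : ℕ → A), Hyp σ u → ¬ EvPer u →
    ∃ C : ℕ, ∀ n : ℕ, pf u (n + 1) ≤ pf u n + C * (n + 1)

/-- The elementary model of an aperiodic purely morphic word. -/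
def S_psys : Prop :=
  ∀ (A : Type) [Fintype A] (σ : A → List A) (u : ℕ → A), Hyp σ u → ¬ EvPer u →
    ∃ (m : ℕ) (X : PSys (Fin m)) (α : Fin m → List (Option A)) (cα : ℤ → ℤ),
      Elementary X.τ ∧ Elementary α ∧ IsParse α X.V cα (ext u)

/-- Complexity of the extended word. -/
def S_ext : Prop :=
  ∀ (A : Type) [Fintype A] (u : ℕ → A) (n : ℕ), pc (ext u) n = pf u n + n

def S_age : Prop :=
  ∀ (B : Type) (X : PSys B) (Q K : ℕ), PBd X Q K → Age X Q K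

def S_pgood : Prop :=
  ∀ (B : Type) [Fintype B] (X : PSys B), Elementary X.τ → ∃ Q K : ℕ, PGood X Q K

def S_pLE : Prop :=
  ∀ (B : Type) [Fintype B] (X : PSys B) (Q K : ℕ), PGood X Q K → ∃ K5 : ℕ, LE1 X Q K5

def S_esc : Prop :=
  ∀ (B : Type) [Fintype B] (X : PSys B) (Q K K5 N' : ℕ), PGood X Q K → Pers X Q K K5 N' →
    Q ≤ N' → (∃ D1 : ℕ, Esc X Q K K5 D1) ∧ ∃ Ds : ℕ, Esc2 X K Ds

/-- Double runs persist. -/
def S_drp : Prop :=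
  ∀ (B : Type) [Fintype B] (X : PSys B) (Q K : ℕ), PBd X Q K → ∀ N5 : ℕ, ∃ L0 : ℕ, ∀ L : ℕ,
    L0 ≤ L → ∀ a1 b1 a2 b2, DR X Q N5 L a1 b1 a2 b2 →
      ∃ b1' a2', X.c b1 ≤ b1' ∧ a2' ≤ X.c a2 ∧ DR X Q N5 L (X.c a1) b1' a2' (X.c b2)

/-- There are linearly many closed double runs. -/
def S_drc : Prop :=
  ∀ (B : Type) [Fintype B] (X : PSys B) (Q K : ℕ), PBd X Q K → ∀ N5 : ℕ, ∃ L0 : ℕ, ∀ L : ℕ,
    L0 ≤ L → ∃ C : ℕ, ∀ n : ℕ,
      Set.ncard {w : List B | ∃ z1 z2, DRB X Q N5 L z1 z2 ∧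
        w = fac X.V z1 (z2 - z1 + 1).toNat ∧ w.length ≤ n} ≤ C * (n + 1)

/-- Desubstitution of a family down to a root of bounded length. -/
def S_root : Prop :=
  ∀ (B : Type) (X : PSys B) (Q K K5 K' : ℕ), PGood X Q K → LE1 X Q K5 → LE1 X.rev Q K5 →
    K5 ≤ K' → K ≤ K' → ∃ N0 : ℕ, ∀ N1 : ℕ, N0 ≤ N1 → ∀ (p0 : Fin 3 → ℤ) (n0 : ℤ),
      (∀ j j', Agr X.V X.V (p0 j) (p0 j') n0) → (∃ j j', X.V (p0 j - 1) ≠ X.V (p0 j' - 1)) →
      (∃ j j', X.V (p0 j + n0) ≠ X.V (p0 j' + n0)) → (N1 : ℤ) ≤ n0 →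
      ¬ Per X.V Q (p0 0 + K') (p0 0 + n0 - K') →
      ∃ (k : ℕ) (p : Fin 3 → ℕ → ℤ) (n : ℕ → ℤ), FChain X K k p n ∧ (∀ j, p j k = p0 j) ∧
        n k = n0 ∧ (N1 : ℤ) ≤ n 0 ∧ n 0 ≤ K * N1 + 2 * K ∧
        ¬ Per X.V Q (p 0 0 + K') (p 0 0 + n 0 - K')

/-- The left end of a family is determined by bounded data at the root. -/
def S_ldet : Prop :=
  ∀ (B : Type) (X : PSys B) (Q K K5 N' D1 : ℕ), PGood X Q K → Pers X Q K K5 N' →
    Esc X Q K K5 D1 → Q ≤ N' → ∃ D0 : ℕ, ∀ Ds : ℕ, D0 ≤ Ds → ∀ N1 : ℕ, K5 + N' ≤ N1 →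
    ∀ (k : ℕ) (p p' : Fin 3 → ℕ → ℤ) (n n' : ℕ → ℤ), FChain X K k p n → FChain X K k p' n' →
      (N1 : ℤ) ≤ n 0 → (N1 : ℤ) ≤ n' 0 →
      (∀ j, Agr X.V X.V (p j 0 - Ds) (p' j 0 - Ds) (Ds + N1)) →
      (¬ Per X.V Q (p 0 k + K5) (p 0 k + K5 + N') → ¬ Per X.V Q (p' 0 k + K5) (p' 0 k + K5 + N') →
        p 0 k - X.c^[k] (p 0 0) = p' 0 k - X.c^[k] (p' 0 0) ∧ X.c^[k] (p 0 0 - Ds) ≤ p 0 k) ∧
      (Per X.V Q (p 0 k + K5) (p 0 k + K5 + N') → Per X.V Q (p' 0 k + K5) (p' 0 k + K5 + N') →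
        ∀ (j : Fin 3) (z z' : ℤ), X.c^[k] (p j 0 - Ds) ≤ z → X.c^[k] (p' j 0 - Ds) ≤ z' →
          z < p j k + K5 → z' < p' j k + K5 → X.V z ≠ X.V (z + Q) → X.V z' ≠ X.V (z' + Q) →
          Per X.V Q (z + 1) (p j k + K5 + N') → Per X.V Q (z' + 1) (p' j k + K5 + N') →
          z - X.c^[k] (p j 0) = z' - X.c^[k] (p' j 0))

/-- Linearly many words have a cycle in their extension graph. -/
def S_cyc : Prop :=
  ∀ (B : Type) [Fintype B] (X : PSys B), Elementary X.τ → ∃ C : ℕ, ∀ n : ℕ,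
    Set.ncard {w : List B | Cyc X.V w ∧ w.length < n} ≤ C * (n + 1)

/-- From the words with a cycle to the first difference of the complexity of an elementary
image. -/
def S_ac : Prop :=
  ∀ (A B : Type) [Fintype A] [Fintype B] (α : B → List A) (V : ℤ → B) (cα : ℤ → ℤ) (U : ℤ → A),
    Elementary α → IsParse α V cα U →
    (∃ C : ℕ, ∀ n : ℕ, Set.ncard {w : List B | Cyc V w ∧ w.length < n} ≤ C * (n + 1)) →
    ∃ C : ℕ, ∀ n : ℕ, pc U (n + 1) ≤ pc U n + C * (n + 1)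

/-- The frozen statement `S07589`. -/
def S_fin : Prop :=
    ∀ (α : Type) [Fintype α] (u : ℕ → α),
      (∃ σ : α → List α,
        (∀ n i, i < ((fun w : List α => w.flatMap σ)^[n] [u 0]).length →
            ((fun w : List α => w.flatMap σ)^[n] [u 0])[i]? = some (u i)) ∧
        (∀ m, ∃ n, m < ((fun w : List α => w.flatMap σ)^[n] [u 0]).length)) →
      (∃ N p : ℕ, 0 < p ∧ ∀ n, N ≤ n → u (n + p) = u n) ∨
      Asymptotics.IsTheta Filter.atTop (fun n : ℕ =>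
          ((Set.range (fun i : ℕ => fun j : Fin (n + 1) => u (i + j.val))).ncard : ℝ)
            - ((Set.range (fun i : ℕ => fun j : Fin n => u (i + j.val))).ncard : ℝ))
      (fun n : ℕ =>
          ((Set.range (fun i : ℕ => fun j : Fin n => u (i + j.val))).ncard : ℝ) / (n : ℝ))

end Pool.Agent.H149Z.PM
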