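import Pool.Agent.H149Z.PM.St

/-! The structure of the stretches of fixed letters (`S_age`). -/

set_option autoImplicit false

namespace Pool.Agent.H149Z.PM

open Pool.Agent.H149Z.SU

namespace Tage

variable {B : Type}

theorem F_bd (X : PSys B) {y : ℤ} (h : X.G (X.V y)) : X.c y ≤ X.F y ∧ X.F y < X.c (y + 1) := by
  have := X.f_lt y h
  unfold PSys.F
  omega

theorem L_bd (X : PSys B) {y : ℤ} (h : X.G (X.V y)) : X.c y ≤ X.L y ∧ X.L y < X.c (y + 1) := by
  have := X.l_le y h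
  unfold PSys.L
  omega

theorem blk_le {X : PSys B} {Q K : ℕ} (G : PBd X Q K) (y : ℤ) : X.c (y + 1) ≤ X.c y + K := by
  have := G.ub (show y ≤ y + 1 by omega)
  rw [show y + 1 - y = 1 by ring, mul_one] at this
  exact this

theorem child (X : PSys B) {z z' : ℤ} (h : X.Str z z') : X.Str (X.L z) (X.F z') := by
  obtain ⟨h1, h2, h3, h4⟩ := h
  have a1 := L_bd X h2
  have a2 := F_bd X h3
  have a3 := X.mono.monotone (show z + 1 ≤ z' by omega)
  refine ⟨by omega, X.l_G z h2, X.f_G z' h3, ?_⟩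
  intro t x y
  by_cases c1 : t < X.c (z + 1)
  · exact X.l_max z t h2 (by unfold PSys.L at x; omega) c1
  by_cases c2 : t < X.c z'
  · exact h4.img t (by omega) c2
  · exact X.f_min z' t h3 (by omega) y

theorem old_str (X : PSys B) : ∀ (k : ℕ) (z z' : ℤ), X.Old k z z' → X.Str z z'
  | 0, _, _, h => h
  | k + 1, _, _, ⟨y, y', h, h1, h2⟩ => by
    rw [h1, h2]
    exact child X (old_str X k y y' h)

theorem G_idx (X : PSys B) {y z : ℤ} (h1 : X.c y ≤ z) (h2 : z < X.c (y + 1)) (h : X.G (X.V z)) :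
    X.G (X.V y) := by
  by_contra hn
  obtain ⟨a1, a2⟩ := X.step_fix hn
  have : z = X.c y := by omega
  rw [this, a2] at h
  exact hn h

theorem parent (X : PSys B) {z z' : ℤ} (h : X.Str z z') :
    (∃ y, X.c y ≤ z ∧ z' < X.c (y + 1)) ∨ X.Old 1 z z' := by
  obtain ⟨h1, h2, h3, h4⟩ := h
  obtain ⟨y, y1, y2⟩ := X.idx z
  obtain ⟨y', y1', y2'⟩ := X.idx z'
  by_cases hc : z' < X.c (y + 1)
  · exact Or.inl ⟨y, y1, hc⟩
  right
  have hyy : y + 1 < y' + 1 := X.mono.lt_iff_lt.mp (by omega)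
  have g := G_idx X y1 y2 h2
  have g' := G_idx X y1' y2' h3
  have a1 := L_bd X g
  have a2 := F_bd X g'
  have a3 := X.mono.monotone (show y + 1 ≤ y' by omega)
  refine ⟨y, y', ⟨by omega, g, g', ?_⟩, ?_, ?_⟩
  · intro t x w ht
    have b1 := F_bd X ht
    have b2 := X.mono.monotone x
    have b3 := X.mono.monotone (show t + 1 ≤ y' by omega)
    exact h4 (X.F t) (by omega) (by omega) (X.f_G t ht)
  · by_contra hne
    rcases lt_or_gt_of_ne hne with hl | hl
    · exact h4 (X.L y) (by omega) (by omega) (X.l_G y g)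
    · exact X.l_max y z g hl y2 h2
  · by_contra hne
    rcases lt_or_gt_of_ne hne with hl | hl
    · exact X.f_min y' z' g' y1' hl h3
    · exact h4 (X.F y') (by omega) (by omega) (X.f_G y' g')

theorem child_len (X : PSys B) {y y' : ℤ} (h : X.Str y y') :
    X.F y' - X.L y = y' - y + X.lo (X.V y) + X.fo (X.V y') := by
  obtain ⟨h1, -, -, h4⟩ := h
  have := h4.cut (t := y') (by omega) le_rfl
  unfold PSys.F PSys.L
  omega

theorem lo_lt {X : PSys B} {Q K : ℕ} (G : PBd X Q K) {y : ℤ} (h : X.G (X.V y)) :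
    (X.lo (X.V y) : ℤ) < K := by
  have := X.l_le y h
  have := blk_le G y
  omega

theorem fo_lt {X : PSys B} {Q K : ℕ} (G : PBd X Q K) {y : ℤ} (h : X.G (X.V y)) :
    (X.fo (X.V y) : ℤ) < K := by
  have := X.f_lt y h
  have := blk_le G y
  omega

theorem long_old {X : PSys B} {Q K : ℕ} (G : PBd X Q K) : ∀ (k : ℕ) (z z' : ℤ), X.Str z z' →
    (K : ℤ) * (2 * k + 1) < z' - z → X.Old k z z'
  | 0, _, _, h, _ => h
  | k + 1, z, z', h, hl => by
    have e : (K : ℤ) * (2 * ((k + 1 : ℕ) : ℤ) + 1) = K * (2 * k + 1) + 2 * K := by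
      push_cast; ring
    rw [e] at hl
    have hk : (K : ℤ) ≤ K * (2 * k + 1) := by
      have : (0 : ℤ) ≤ K * (2 * k) := by positivity
      nlinarith
    rcases parent X h with ⟨y, y1, y2⟩ | ⟨y, y', hs, h1, h2⟩
    · have := blk_le G y
      omega
    · have hs' : X.Str y y' := hs
      have a1 := child_len X hs'
      have a2 := lo_lt G hs'.2.1
      have a3 := fo_lt G hs'.2.2.1
      exact ⟨y, y', long_old G k y y' hs' (by omega), h1, h2⟩

theorem blk_agr (X : PSys B) {y z : ℤ} (h : X.V z = X.V y) :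
    X.c (z + 1) - X.c z = X.c (y + 1) - X.c y ∧
      Agr X.V X.V (X.c z) (X.c y) (X.c (z + 1) - X.c z) := by
  have hA : Agr X.V X.V z y 1 := by
    intro t h0 h1
    obtain rfl : t = 0 := by omega
    simpa using h
  exact ⟨X.cut_at hA (by omega) le_rfl (by omega), X.agr hA⟩

theorem left_step (X : PSys B) {y z e : ℤ} (g : X.G (X.V y)) (hz : z = X.L y)
    (hV : X.V z = X.V y) (hF : X.Fx (z + 1) e) (he : z + 1 + X.lo (X.V z) ≤ e)
    (hP : Per X.V (X.lo (X.V z)) (z + 1) e) : Per X.V (X.lo (X.V z)) (X.L z + 1) (X.c e) := by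
  intro t x w
  have a1 := hF.cut (t := e) (by omega) le_rfl
  have a2 := hF.agr
  obtain ⟨b1, b2⟩ := blk_agr X hV
  have a3 := L_bd X (hV ▸ g : X.G (X.V z))
  have e1 : X.L z = X.c (z + 1) - 1 - X.lo (X.V z) := rfl
  have e2 : z = X.c (y + 1) - 1 - X.lo (X.V z) := by rw [hV]; exact hz
  by_cases c1 : t < X.c (z + 1)
  · rw [b2.at (x := t) (y := t - X.c z + X.c y) (by omega) (by omega) (by omega),
      a2.at (x := t + X.lo (X.V z)) (y := t - X.c z + X.c y) (by omega) (by omega) (by omega)]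
  · rw [a2.at (x := t) (y := t - X.c (z + 1) + (z + 1)) (by omega) (by omega) (by omega),
      a2.at (x := t + X.lo (X.V z)) (y := t - X.c (z + 1) + (z + 1) + X.lo (X.V z)) (by omega)
        (by omega) (by omega)]
    exact hP _ (by omega) (by omega)

theorem right_step (X : PSys B) {y z e : ℤ} (g : X.G (X.V y)) (hz : z = X.F y)
    (hV : X.V z = X.V y) (hF : X.Fx e z) (he : e ≤ z - X.fo (X.V z))
    (hP : Per X.V (X.fo (X.V z)) e z) : Per X.V (X.fo (X.V z)) (X.c e) (X.F z) := by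
  intro t x w
  have a1 := hF.cut (t := z) (by omega) le_rfl
  have a2 := hF.agr
  obtain ⟨b1, b2⟩ := blk_agr X hV
  have a3 := F_bd X (hV ▸ g : X.G (X.V z))
  have e1 : X.F z = X.c z + X.fo (X.V z) := rfl
  have e2 : z = X.c y + X.fo (X.V z) := by rw [hV]; exact hz
  by_cases c1 : t + X.fo (X.V z) < X.c z
  · rw [a2.at (x := t) (y := t - X.c e + e) (by omega) (by omega) (by omega),
      a2.at (x := t + X.fo (X.V z)) (y := t - X.c e + e + X.fo (X.V z)) (by omega)
        (by omega) (by omega)]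
    exact hP _ (by omega) (by omega)
  · rw [a2.at (x := t) (y := t - X.c e + e) (by omega) (by omega) (by omega),
      b2.at (x := t + X.fo (X.V z)) (y := t - X.c e + e) (by omega) (by omega) (by omega)]

/-- The invariant of the induction. -/
def Inv (X : PSys B) (K : ℕ) (z z' : ℤ) (a : ℕ) : Prop :=
  z + 1 + a * X.lo (X.V z) ≤ z' - a * X.fo (X.V z') ∧
  z' - a * X.fo (X.V z') ≤ z + 1 + a * X.lo (X.V z) + 3 * K ∧
  Per X.V (X.lo (X.V z)) (X.L z + 1) (X.c (z + 1 + a * X.lo (X.V z))) ∧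
  Per X.V (X.fo (X.V z')) (X.c (z' - a * X.fo (X.V z'))) (X.F z')

theorem idem (X : PSys B) {z z' : ℤ} (h : X.Old 1 z z') :
    X.V (X.L z) = X.V z ∧ X.V (X.F z') = X.V z' := by
  obtain ⟨y, y', hs, h1, h2⟩ := h
  have hs' : X.Str y y' := hs
  exact ⟨X.l_idem y z hs'.2.1 h1, X.f_idem y' z' hs'.2.2.1 h2⟩

theorem old_one (X : PSys B) {k : ℕ} {z z' : ℤ} (h : X.Old (k + 1) z z') : X.Old 1 z z' := by
  obtain ⟨y, y', hs, h1, h2⟩ := h
  exact ⟨y, y', old_str X k y y' hs, h1, h2⟩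

theorem L_inj (X : PSys B) {y w : ℤ} (g : X.G (X.V y)) (g' : X.G (X.V w)) (h : X.L y = X.L w) :
    y = w := by
  have a1 := L_bd X g
  have a2 := L_bd X g'
  have b1 : y < w + 1 := X.mono.lt_iff_lt.mp (by omega)
  have b2 : w < y + 1 := X.mono.lt_iff_lt.mp (by omega)
  omega

theorem F_inj (X : PSys B) {y w : ℤ} (g : X.G (X.V y)) (g' : X.G (X.V w)) (h : X.F y = X.F w) :
    y = w := by
  have a1 := F_bd X g
  have a2 := F_bd X g'
  have b1 : y < w + 1 := X.mono.lt_iff_lt.mp (by omega)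
  have b2 : w < y + 1 := X.mono.lt_iff_lt.mp (by omega)
  omega

theorem inv_step (X : PSys B) {K : ℕ} {y y' : ℤ} {a : ℕ} (ho : X.Old 1 y y')
    (h : Inv X K y y' a) : Inv X K (X.L y) (X.F y') (a + 1) := by
  have hs := old_str X 1 y y' ho
  have hc := child X hs
  obtain ⟨i1, i2⟩ := idem X ho
  obtain ⟨h1, h2, h3, h4⟩ := h
  have p1 : (0 : ℤ) ≤ a * X.lo (X.V y) := by positivity
  have p2 : (0 : ℤ) ≤ a * X.fo (X.V y') := by positivity
  have c1 := hs.2.2.2.cut (t := y + 1 + a * X.lo (X.V y)) (by omega) (by omega)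
  have c2 := hs.2.2.2.cut (t := y' - a * X.fo (X.V y')) (by omega) (by omega)
  have c3 := hs.2.2.2.cut (t := y') (by have := hs.1; omega) le_rfl
  have e1 : X.L y = X.c (y + 1) - 1 - X.lo (X.V y) := rfl
  have e2 : X.F y' = X.c y' + X.fo (X.V y') := rfl
  have f1 : X.L y + 1 + ((a + 1 : ℕ) : ℤ) * X.lo (X.V (X.L y)) =
      X.c (y + 1 + a * X.lo (X.V y)) := by
    rw [i1]; push_cast; rw [add_mul, one_mul]; omega
  have f2 : X.F y' - ((a + 1 : ℕ) : ℤ) * X.fo (X.V (X.F y')) =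
      X.c (y' - a * X.fo (X.V y')) := by
    rw [i2]; push_cast; rw [add_mul, one_mul]; omega
  unfold Inv
  rw [f1, f2]
  refine ⟨by omega, by omega, ?_, ?_⟩
  · refine left_step X hs.2.1 rfl i1 (hc.2.2.2.mono le_rfl (by omega)) (by rw [i1]; omega) ?_
    rw [i1]; exact h3
  · refine right_step X hs.2.2.1 rfl i2 (hc.2.2.2.mono (by omega) le_rfl) (by rw [i2]; omega) ?_
    rw [i2]; exact h4

theorem lo_neg (X : PSys B) : X.lo (X.V (-1)) = 0 := by
  by_contra hne
  have h0 := X.c0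
  refine X.l_max (-1) (-1) X.G1 ?_ ?_ X.G1 <;> rw [show (-1 : ℤ) + 1 = 0 by ring] <;> omega

theorem fo_zero (X : PSys B) : X.fo (X.V 0) = 0 := by
  by_contra hne
  have h0 := X.c0
  exact X.f_min 0 0 X.G0 (by omega) (by omega) X.G0

theorem c_pos (X : PSys B) {i : ℤ} (h : 1 ≤ i) : i + 1 ≤ X.c i := by
  have a1 := X.step_G X.G0
  have a2 := X.lb h
  have a3 := X.c0
  rw [zero_add] at a1
  omega

theorem c_neg (X : PSys B) {i : ℤ} (h : i ≤ -1) : X.c i ≤ i - 1 := by
  have a1 := X.step_G X.G1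
  have a2 := X.lb h
  have a3 := X.c0
  rw [show (-1 : ℤ) + 1 = 0 by ring] at a1
  omega

theorem exists_inv {X : PSys B} {Q K : ℕ} (G : PBd X Q K) (n : ℕ) :
    ∀ z z' : ℤ, z.natAbs + z'.natAbs ≤ n → ¬ (z = -1 ∧ z' = 0) → X.Old 1 z z' →
      ∃ a : ℕ, (∀ k, X.Old (k + 1) z z' → k ≤ a) ∧ Inv X K z z' a := by
  induction n using Nat.strong_induction_on with
  | _ n ih =>
    intro z z' hn hne ho
    have hz := old_str X 1 z z' ho
    obtain ⟨y, y', hs, h1, h2⟩ := ho
    have hs' : X.Str y y' := hs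
    have a1 := L_bd X hs'.2.1
    have a2 := F_bd X hs'.2.2.1
    have uniq : ∀ k, X.Old (k + 1) z z' → X.Old k y y' := by
      rintro k ⟨w, w', hw, e1, e2⟩
      have hw' := old_str X k w w' hw
      rw [L_inj X hs'.2.1 hw'.2.1 (h1.symm.trans e1), F_inj X hs'.2.2.1 hw'.2.2.1 (h2.symm.trans e2)]
      exact hw
    by_cases hy : X.Old 1 y y'
    · have hlt := hs'.1
      have hzz := hz.1
      have c0 := X.c0
      have side : 0 ≤ z ∨ z' ≤ -1 := by
        by_contra hc
        have b1 : z = -1 := by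
          by_contra hb
          exact hz.2.2.2 (-1) (by omega) (by omega) X.G1
        have b2 : z' = 0 := by
          by_contra hb
          exact hz.2.2.2 0 (by omega) (by omega) X.G0
        exact hne ⟨b1, b2⟩
      have key : y.natAbs + y'.natAbs < z.natAbs + z'.natAbs ∧ ¬ (y = -1 ∧ y' = 0) := by
        rcases side with hp | hp
        · have b1 : 0 < y + 1 := X.mono.lt_iff_lt.mp (by omega)
          have b2 := c_pos X (show 1 ≤ y' by omega)
          have b3 := X.lb (show 0 ≤ y by omega)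
          omega
        · have b1 : y' < 0 := X.mono.lt_iff_lt.mp (by omega)
          have b2 := c_neg X (show y + 1 ≤ -1 by omega)
          have b3 := X.lb (show y' + 1 ≤ 0 by omega)
          omega
      obtain ⟨a, ha, hI⟩ := ih (y.natAbs + y'.natAbs) (by omega) y y' le_rfl key.2 hy
      refine ⟨a + 1, ?_, ?_⟩
      · intro k hk
        rcases k with _ | k
        · omega
        · have := ha k (uniq _ hk)
          omega
      · rw [h1, h2]
        exact inv_step X hy hI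
    · obtain ⟨w, w1, w2⟩ := (parent X hs').resolve_right hy
      have b1 := blk_le G w
      have b2 := child_len X hs'
      have b3 := lo_lt G hs'.2.1
      have b4 := fo_lt G hs'.2.2.1
      have hzz := hz.1
      refine ⟨0, ?_, ?_, ?_, ?_, ?_⟩
      · intro k hk
        rcases k with _ | k
        · omega
        · exact absurd (old_one X (uniq _ hk)) hy
      · simp only [Nat.cast_zero, zero_mul]; omega
      · simp only [Nat.cast_zero, zero_mul]; omega
      · intro t x w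
        simp only [Nat.cast_zero, zero_mul, add_zero] at w
        unfold PSys.L at x
        omega
      · intro t x w
        simp only [Nat.cast_zero, zero_mul, sub_zero] at x
        unfold PSys.F at w
        omega

theorem per_Q {U : ℤ → B} {r Q : ℕ} {a b : ℤ} (hd : r ∣ Q) (h : Per U r a b) : Per U Q a b := by
  obtain ⟨m, rfl⟩ := hd
  have := h.mul (by positivity) m
  rwa [show (m : ℤ) * r = ((r * m : ℕ) : ℤ) by push_cast; ring] at this

theorem per_empty {U : ℤ → B} {Q : ℕ} {a b : ℤ} (h : b ≤ a) : Per U Q a b := by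
  intro t x y
  omega

theorem shape {X : PSys B} {Q K : ℕ} (G : PBd X Q K) (k : ℕ) (z z' : ℤ)
    (h : X.Old (k + 1) z z') : X.V (X.L z) = X.V z ∧ X.V (X.F z') = X.V z' ∧
    ∃ a : ℕ, k ≤ a ∧ z + 1 + a * X.lo (X.V z) ≤ z' - a * X.fo (X.V z') ∧
      z' - a * X.fo (X.V z') ≤ z + 1 + a * X.lo (X.V z) + 3 * K ∧
      Per X.V Q (X.L z + 1) (X.c (z + 1 + a * X.lo (X.V z))) ∧
      Per X.V Q (X.c (z' - a * X.fo (X.V z'))) (X.F z') ∧
      Per X.V Q (z + 1) (z + 1 + a * X.lo (X.V z)) ∧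
      Per X.V Q (z' - a * X.fo (X.V z')) z' := by
  have ho := old_one X h
  have hs := old_str X 1 z z' ho
  obtain ⟨i1, i2⟩ := idem X ho
  refine ⟨i1, i2, ?_⟩
  have ex : ∃ a : ℕ, k ≤ a ∧ Inv X K z z' a := by
    by_cases hc : z = -1 ∧ z' = 0
    · obtain ⟨rfl, rfl⟩ := hc
      refine ⟨k, le_rfl, ?_⟩
      unfold Inv PSys.L PSys.F
      rw [lo_neg, fo_zero]
      simp only [Nat.cast_zero, mul_zero, add_zero, sub_zero]
      refine ⟨by omega, by omega, ?_, ?_⟩ <;> intro t _ _ <;> simp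
    · obtain ⟨a, ha, hI⟩ := exists_inv G _ z z' le_rfl hc ho
      exact ⟨a, ha k h, hI⟩
  obtain ⟨a, ha, h1, h2, h3, h4⟩ := ex
  have p1 : (0 : ℤ) ≤ a * X.lo (X.V z) := by positivity
  have p2 : (0 : ℤ) ≤ a * X.fo (X.V z') := by positivity
  have c1 := hs.2.2.2.cut (t := z + 1 + a * X.lo (X.V z)) (by omega) (by omega)
  have c2 := hs.2.2.2.cut (t := z' - a * X.fo (X.V z')) (by omega) (by omega)
  have c3 := hs.2.2.2.cut (t := z') (by have := hs.1; omega) le_rfl
  have e1 : X.L z = X.c (z + 1) - 1 - X.lo (X.V z) := rfl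
  have e2 : X.F z' = X.c z' + X.fo (X.V z') := rfl
  have q3 : Per X.V Q (X.L z + 1) (X.c (z + 1 + a * X.lo (X.V z))) := by
    rcases G.dvd_lo (X.V z) with h0 | h0
    · apply per_empty
      rw [c1, e1, h0]
      simp
    · exact per_Q h0 h3
  have q4 : Per X.V Q (X.c (z' - a * X.fo (X.V z'))) (X.F z') := by
    rcases G.dvd_fo (X.V z') with h0 | h0
    · apply per_empty
      rw [e2, h0]
      simp
    · exact per_Q h0 h4
  have ag := hs.2.2.2.agr
  refine ⟨a, ha, h1, h2, q3, q4, ?_, ?_⟩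
  · have := (q3.mono (a' := X.c (z + 1)) (by omega) le_rfl).agr (by positivity) ag le_rfl (by omega)
    exact this.mono (by omega) (by omega)
  · have := (q4.mono (b' := X.c z') le_rfl (by omega)).agr (by positivity) ag (by omega) (by omega)
    exact this.mono (by omega) (by omega)

theorem split {X : PSys B} {Q K : ℕ} (G : PBd X Q K) (a b : ℤ) (h : X.Fx a b) :
    ∃ m, Per X.V Q a (m - 3 * K) ∧ Per X.V Q (m + 3 * K) b := by
  by_cases hc : b ≤ a + 6 * K
  · exact ⟨a + 3 * K, per_empty (by omega), per_empty (by omega)⟩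
  obtain ⟨z, ⟨z1, z2⟩, zmax⟩ := Int.exists_greatest_of_bdd
    (P := fun j => j ≤ a - 1 ∧ X.G (X.V j)) ⟨a - 1, fun _ hz => hz.1⟩ (X.infL (a - 1))
  obtain ⟨z', ⟨z1', z2'⟩, zmin⟩ := Int.exists_least_of_bdd
    (P := fun j => b ≤ j ∧ X.G (X.V j)) ⟨b, fun _ hz => hz.1⟩ (X.infR b)
  have hs : X.Str z z' := by
    refine ⟨by omega, z2, z2', ?_⟩
    intro t x y ht
    by_cases c1 : t < a
    · have := zmax t ⟨by omega, ht⟩
      omega
    by_cases c2 : t < b
    · exact h t (by omega) c2 ht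
    · have := zmin t ⟨by omega, ht⟩
      omega
  have ho : X.Old (0 + 1) z z' := long_old G 1 z z' hs (by push_cast; omega)
  obtain ⟨-, -, n, -, h1, h2, -, -, h5, h6⟩ := shape G 0 z z' ho
  exact ⟨z + 1 + n * X.lo (X.V z), h5.mono (by omega) (by omega), h6.mono (by omega) (by omega)⟩

end Tage

theorem thm_age : S_age := by
  intro B X Q K G
  exact ⟨fun _ _ h => Tage.child X h, Tage.old_str X, fun _ _ h => Tage.parent X h,
    Tage.long_old G, Tage.shape G, Tage.split G⟩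

end Pool.Agent.H149Z.PM
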