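import Pool.Agent.H149Z.PM.St

/-! Double runs persist. -/

set_option autoImplicit false

namespace Pool.Agent.H149Z.PM

open Pool.Agent.H149Z.SU

namespace Tdrp

variable {B : Type} {X : PSys B} {Q K : ℕ}

theorem next_G (X : PSys B) (i : ℤ) : ∃ g, i ≤ g ∧ X.G (X.V g) ∧ X.Fx i g := by
  obtain ⟨g, ⟨h1, h2⟩, h3⟩ := Int.exists_least_of_bdd (P := fun g => i ≤ g ∧ X.G (X.V g))
    ⟨i, fun z hz => hz.1⟩ (X.infR i)
  refine ⟨g, h1, h2, fun t a b hG => ?_⟩
  have := h3 t ⟨a, hG⟩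
  omega

theorem prev_G (X : PSys B) (i : ℤ) : ∃ g, g < i ∧ X.G (X.V g) ∧ X.Fx (g + 1) i := by
  obtain ⟨j, hj1, hj2⟩ := X.infL (i - 1)
  obtain ⟨g, ⟨h1, h2⟩, h3⟩ := Int.exists_greatest_of_bdd (P := fun g => g < i ∧ X.G (X.V g))
    ⟨i, fun z hz => hz.1.le⟩ ⟨j, by omega, hj2⟩
  refine ⟨g, h1, h2, fun t a b hG => ?_⟩
  have := h3 t ⟨b, hG⟩
  omega

theorem F_le_L {y : ℤ} (h : X.G (X.V y)) : X.F y ≤ X.L y := by
  by_contra hc
  exact X.l_max y (X.F y) h (by unfold PSys.L at hc; omega) (X.f_lt y h) (X.f_G y h)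

theorem diff_eq {y y' : ℤ} (h : X.V y = X.V y') : X.L y - X.F y = X.L y' - X.F y' := by
  have h1 := X.parse.step y
  have h2 := X.parse.step y'
  unfold PSys.L PSys.F
  rw [h] at h1 ⊢
  omega

theorem str_unique {z g g' : ℤ} (h : X.Str z g) (h' : X.Str z g') : g = g' := by
  rcases lt_trichotomy g g' with hl | he | hl
  · exact absurd h.2.2.1 (h'.2.2.2 g (by have := h.1; omega) hl)
  · exact he
  · exact absurd h'.2.2.1 (h.2.2.2 g' (by have := h'.1; omega) hl)

theorem old_pred (A : Age X Q K) : ∀ (k : ℕ) (z z' : ℤ), X.Old (k + 1) z z' → X.Old k z z' := by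
  intro k
  induction k with
  | zero => intro z z' h; exact A.old_str _ _ _ h
  | succ k ih =>
    rintro z z' ⟨y, y', h, rfl, rfl⟩
    exact ⟨y, y', ih _ _ h, rfl, rfl⟩

theorem old_mono (A : Age X Q K) {k l : ℕ} (hkl : k ≤ l) {z z' : ℤ} (h : X.Old l z z') :
    X.Old k z z' := by
  induction l, hkl using Nat.le_induction with
  | base => exact h
  | succ l _ ih => exact ih (old_pred A _ _ _ h)

theorem iter_ub (G : PBd X Q K) (j : ℕ) (y : ℤ) : X.c^[j] (y + 1) ≤ X.c^[j] y + (K : ℤ) ^ j := by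
  induction j with
  | zero => simp
  | succ j ih =>
    simp only [Function.iterate_succ_apply']
    have h1 := (X.iter_mono j).monotone (show y ≤ y + 1 by omega)
    have h2 := G.ub h1
    have h3 : (K : ℤ) * (X.c^[j] (y + 1) - X.c^[j] y) ≤ K * (K : ℤ) ^ j :=
      mul_le_mul_of_nonneg_left (by omega) (by positivity)
    rw [pow_succ']
    omega

theorem nonlin (A : Age X Q K) : ∀ (j : ℕ) (z g : ℤ), X.Old (j + 1) z g → X.F g ≠ X.L g →
    ∃ y w, X.c^[j] y ≤ g ∧ g + j ≤ w ∧ w < X.c^[j] (y + 1) ∧ X.G (X.V w) := by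
  intro j
  induction j with
  | zero =>
    intro z g h _
    exact ⟨g, g, by simp, by simp, by simp, (A.old_str _ _ _ h).2.2.1⟩
  | succ j ih =>
    rintro z g ⟨y0, y', h, rfl, rfl⟩ hne
    have hV := (A.shape _ _ _ h).2.1
    have hd := diff_eq hV
    have hG := (A.old_str _ _ _ h).2.2.1
    have hle := F_le_L hG
    obtain ⟨y, w, a1, a2, a3, a4⟩ := ih _ _ h (by omega)
    refine ⟨y, X.L w, ?_, ?_, ?_, X.l_G w a4⟩
    · rw [Function.iterate_succ_apply']
      have := X.mono.monotone a1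
      unfold PSys.F
      omega
    · have b1 := X.l_le w a4
      push_cast
      rcases (show y' ≤ w by omega).eq_or_lt with he | hl
      · rw [← he] at a2 ⊢
        omega
      · have b2 := X.lb (show y' + 1 ≤ w by omega)
        unfold PSys.L at *
        omega
    · rw [Function.iterate_succ_apply']
      have := X.mono.monotone (show w + 1 ≤ X.c^[j] (y + 1) by omega)
      unfold PSys.L
      omega

theorem lin_next (A : Age X Q K) : ∀ (t : ℕ) (z g g' : ℤ), X.Old (t + 1) z g → X.F g = X.L g →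
    X.Str g g' → X.Old t g g' := by
  intro t
  induction t with
  | zero => intro z g g' _ _ h; exact h
  | succ t ih =>
    rintro z g g' ⟨y0, y, h, rfl, rfl⟩ hl hs
    have hV := (A.shape _ _ _ h).2.1
    have hd := diff_eq hV
    have hG := (A.old_str _ _ _ h).2.2.1
    obtain ⟨y', b1, b2, b3⟩ := next_G X (y + 1)
    have hs' : X.Str y y' := ⟨by omega, hG, b2, b3⟩
    have hyl : X.F y = X.L y := by omega
    have hc := A.child _ _ hs'
    rw [← hyl] at hc
    exact ⟨y, y', ih _ _ _ h hyl hs', hyl, str_unique hs hc⟩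

theorem cluster (G : PBd X Q K) (A : Age X Q K) (N5 : ℕ) (b1 a2 b2 : ℤ) (h1 : a2 ≤ b1 + N5)
    (h2 : a2 + (K : ℤ) ^ N5 ≤ b2) (h3 : X.Fx a2 b2) : ∀ (d : ℕ) (z g : ℤ),
    X.Old (N5 + 2 + d) z g → b1 ≤ g → g < a2 → a2 - g ≤ d →
    ∃ h, g ≤ h ∧ h < a2 ∧ X.G (X.V h) ∧ X.Fx (h + 1) a2 ∧ X.L h - X.F g = h - g := by
  intro d
  induction d with
  | zero => intro z g _ _ a b; omega
  | succ d ih =>
    intro z g ho a1 a2' a3
    have hG := (A.old_str _ _ _ ho).2.2.1
    have hlin : X.F g = X.L g := by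
      by_contra hne
      obtain ⟨y, w, c1, c2, c3, c4⟩ := nonlin A N5 z g (old_mono A (by omega) ho) hne
      have c5 := iter_ub G N5 y
      exact h3 w (by omega) (by omega) c4
    obtain ⟨g', b1', b2', b3⟩ := next_G X (g + 1)
    by_cases hg' : a2 ≤ g'
    · exact ⟨g, le_rfl, a2', hG, b3.mono le_rfl hg', by omega⟩
    · have hs : X.Str g g' := ⟨by omega, hG, b2', b3⟩
      have ho' : X.Old (N5 + 2 + d) g g' := lin_next A _ z g g' ho hlin hs
      obtain ⟨-, -, a, ha, hsh, -⟩ := A.shape (N5 + 1 + d) g g' (old_mono A (by omega) ho')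
      have ha' : (N5 : ℤ) + 1 ≤ a := by omega
      have e1 : X.lo (X.V g) = 0 := by
        by_contra hc
        have : (1 : ℤ) ≤ X.lo (X.V g) := by omega
        have h5 : (0 : ℤ) ≤ a * X.fo (X.V g') := by positivity
        nlinarith
      have e2 : X.fo (X.V g') = 0 := by
        by_contra hc
        have : (1 : ℤ) ≤ X.fo (X.V g') := by omega
        have h5 : (0 : ℤ) ≤ a * X.lo (X.V g) := by positivity
        nlinarith
      obtain ⟨h, c1, c2, c3, c4, c5⟩ := ih g g' ho' (by omega) (by omega) (by omega)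
      refine ⟨h, by omega, c2, c3, c4, ?_⟩
      have c6 := b3.cut (t := g') b1' le_rfl
      rw [hlin]
      unfold PSys.L PSys.F at *
      omega

theorem per_img {a b : ℤ} (hf : X.Fx a b) (hab : a ≤ b) (hp : Per X.V Q a b) :
    Per X.V Q (X.c a) (X.c b) := by
  have h1 := hp.agr (by positivity) hf.agr.symm le_rfl (by omega)
  have h2 := hf.cut (t := b) hab le_rfl
  exact h1.mono (by omega) (by omega)

end Tdrp

open Tdrp in
theorem thm_drp (h : S_age) : S_drp := by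
  intro B _ X Q K G N5
  have A := h B X Q K G
  refine ⟨K ^ N5 + K * (2 * (2 * N5 + Q + 2) + 1) + 1, fun L hL a1 b1 a2 b2 D => ?_⟩
  have hL' : (K : ℤ) ^ N5 + K * (2 * ((2 * N5 + Q + 2 : ℕ) : ℤ) + 1) + 1 ≤ L := by exact_mod_cast hL
  have hK1 : (0 : ℤ) ≤ (K : ℤ) ^ N5 := by positivity
  have hK2 : (0 : ℤ) ≤ K * (2 * ((2 * N5 + Q + 2 : ℕ) : ℤ) + 1) := by positivity
  obtain ⟨l1, g1, g2, l2, f1, f2, p1, p2⟩ := D
  have q1 := per_img f1 (by omega) p1
  have q2 := per_img f2 (by omega) p2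
  have k1 := f1.cut (t := b1) (by omega) le_rfl
  have k2 := f2.cut (t := b2) (by omega) le_rfl
  obtain ⟨g, n1, n2, n3⟩ := next_G X b1
  by_cases hg : a2 ≤ g
  · have k3 := n3.cut (t := a2) g1 hg
    exact ⟨X.c b1, X.c a2, le_rfl, le_rfl,
      ⟨by omega, by omega, by omega, by omega, f1.img, f2.img, q1, q2⟩⟩
  obtain ⟨z, m1, m2, m3⟩ := prev_G X a1
  have hs : X.Str z g := by
    refine ⟨by omega, m2, n2, fun t x y => ?_⟩
    by_cases t1 : t < a1
    · exact m3 t x t1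
    by_cases t2 : t < b1
    · exact f1 t (by omega) t2
    · exact n3 t (by omega) y
  have ho := A.long_old (2 * N5 + Q + 2) z g hs (by omega)
  obtain ⟨e, c1, c2, c3, c4, c5⟩ := cluster G A N5 b1 a2 b2 g2 (by omega) f2 N5 z g
    (old_mono A (by omega) ho) n1 (by omega) (by omega)
  obtain ⟨e', r1, r2, r3⟩ := next_G X b2
  have hs' : X.Str e e' := by
    refine ⟨by omega, c3, r2, fun t x y => ?_⟩
    by_cases t1 : t < a2
    · exact c4 t x t1
    by_cases t2 : t < b2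
    · exact f2 t (by omega) t2
    · exact r3 t (by omega) y
  have ho' := A.long_old (2 * N5 + Q + 2) e e' hs' (by omega)
  have left : ∃ b1', X.c b1 ≤ b1' ∧ b1' ≤ X.F g ∧ X.F g - (g - b1) ≤ b1' ∧ X.Fx (X.c a1) b1' ∧
      Per X.V Q (X.c a1) b1' := by
    have k3 := n3.cut (t := g) n1 le_rfl
    by_cases h0 : X.fo (X.V g) = 0
    · exact ⟨X.c b1, le_rfl, by unfold PSys.F; omega, by unfold PSys.F; omega, f1.img, q1⟩
    · obtain ⟨-, -, a, ha, -, -, -, hp, -⟩ := A.shape (2 * N5 + Q + 1) z g ho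
      have ha' : 2 * (N5 : ℤ) + Q + 1 ≤ a := by omega
      have h5 : (a : ℤ) ≤ a * X.fo (X.V g) := by
        have : (1 : ℤ) ≤ X.fo (X.V g) := by omega
        nlinarith
      have h6 := X.lb (show g - a * X.fo (X.V g) ≤ b1 by omega)
      have h7 := X.mono.monotone (show z + 1 ≤ a1 by omega)
      refine ⟨X.F g, by unfold PSys.F; omega, le_rfl, by omega,
        (A.child _ _ hs).2.2.2.mono (by unfold PSys.L; omega) le_rfl, q1.glue hp (by omega)⟩
  have right : ∃ a2', a2' ≤ X.c a2 ∧ X.L e + 1 ≤ a2' ∧ a2' ≤ X.L e + (a2 - e) ∧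
      X.Fx a2' (X.c b2) ∧ Per X.V Q a2' (X.c b2) := by
    have k3 := c4.cut (t := a2) (by omega) le_rfl
    by_cases h0 : X.lo (X.V e) = 0
    · exact ⟨X.c a2, le_rfl, by unfold PSys.L; omega, by unfold PSys.L; omega, f2.img, q2⟩
    · obtain ⟨-, -, a, ha, -, -, hp, -⟩ := A.shape (2 * N5 + Q + 1) e e' ho'
      have ha' : 2 * (N5 : ℤ) + Q + 1 ≤ a := by omega
      have h5 : (a : ℤ) ≤ a * X.lo (X.V e) := by
        have : (1 : ℤ) ≤ X.lo (X.V e) := by omega
        nlinarith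
      have h6 := X.lb (show a2 ≤ e + 1 + a * X.lo (X.V e) by omega)
      have h7 := X.mono.monotone r1
      refine ⟨X.L e + 1, by unfold PSys.L; omega, le_rfl, by omega,
        (A.child _ _ hs').2.2.2.mono le_rfl (by unfold PSys.F; omega), hp.glue q2 (by omega)⟩
  obtain ⟨b1', u1, u2, u3, u4, u5⟩ := left
  obtain ⟨a2', v1, v2, v3, v4, v5⟩ := right
  exact ⟨b1', a2', u1, v1, ⟨by omega, by omega, by omega, by omega, u4, v4, u5, v5⟩⟩

end Pool.Agent.H149Z.PM
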