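import Pool.Agent.H149Z.PM.St

/-! `thm_ext` and `thm_upper` (written by helper822; `fac_nat`, `pc_eq` adapted from
`SU/Tfinal.lean`). -/

set_option autoImplicit false

namespace Pool.Agent.H149Z.PM

open Pool.Agent.H149Z.SU

namespace Text

variable {A : Type}

theorem fac_nat (u : ℕ → A) (i n : ℕ) :
    fac (ext u) i n = (List.ofFn (fun j : Fin n => u (i + j.val))).map some := by
  apply List.ext_getElem (by simp)
  intro j h1 h2
  rw [fac_getElem, ← Nat.cast_add]
  unfold ext
  rw [if_neg (by omega), Int.toNat_natCast]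
  simp

theorem pc_eq [Fintype A] (u : ℕ → A) (n : ℕ) : pc (ext u) n = pu u n + n := by
  unfold pc pu
  have hf1 : (Set.range (fun i : ℕ => List.ofFn (fun j : Fin n => u (i + j.val)))).Finite :=
    (finite_len n).subset (by rintro w ⟨i, rfl⟩; simp)
  have hinj : Function.Injective (List.map (some : A → Option A)) :=
    List.map_injective_iff.2 (Option.some_injective A)
  have hinj2 : Function.Injective (fun s : Fin n => fac (ext u) (-(s : ℤ) - 1) n) := by
    have key : ∀ s s' : Fin n, s.val < s'.val →
        fac (ext u) (-(s : ℤ) - 1) n ≠ fac (ext u) (-(s' : ℤ) - 1) n := by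
      intro s s' hs h
      rw [fac_eq_iff] at h
      have := h (s + 1) (by omega) (by omega)
      unfold ext at this
      rw [if_neg (by omega), if_pos (by omega)] at this
      cases this
    intro s s' h
    rcases lt_trichotomy s.val s'.val with c | c | c
    · exact absurd h (key s s' c)
    · exact Fin.ext c
    · exact absurd h.symm (key s' s c)
  have e : {w : List (Option A) | ∃ p : ℤ, w = fac (ext u) p n} =
      List.map some '' (Set.range (fun i : ℕ => List.ofFn (fun j : Fin n => u (i + j.val)))) ∪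
        Set.range (fun s : Fin n => fac (ext u) (-(s : ℤ) - 1) n) := by
    ext w
    constructor
    · rintro ⟨p, rfl⟩
      by_cases hp : 0 ≤ p
      · obtain ⟨i, rfl⟩ := Int.eq_ofNat_of_zero_le hp
        exact Or.inl ⟨_, ⟨i, rfl⟩, (fac_nat u i n).symm⟩
      · rcases Nat.eq_zero_or_pos n with rfl | hn
        · exact Or.inl ⟨_, ⟨0, rfl⟩, by simp [fac_zero]⟩
        · by_cases hq : -(n : ℤ) ≤ p
          · refine Or.inr ⟨⟨(-p - 1).toNat, by omega⟩, ?_⟩
            simp only
            congr 1
            omega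
          · refine Or.inr ⟨⟨n - 1, by omega⟩, ?_⟩
            simp only
            rw [fac_eq_iff]
            intro t a b
            unfold ext
            rw [if_pos (by omega), if_pos (by omega)]
    · rintro (⟨_, ⟨i, rfl⟩, rfl⟩ | ⟨s, rfl⟩)
      · exact ⟨i, (fac_nat u i n).symm⟩
      · exact ⟨_, rfl⟩
  rw [e, Set.ncard_union_eq _ (hf1.image _) (Set.finite_range _), Set.ncard_image_of_injective _ hinj,
    Set.ncard_range_of_injective hinj2]
  · simp
  · rw [Set.disjoint_left]
    rintro _ ⟨_, ⟨i, rfl⟩, rfl⟩ ⟨s, hs⟩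
    simp only at hs
    rw [← fac_nat, fac_eq_iff] at hs
    have hs' := s.2
    have := hs 0 le_rfl (by omega)
    unfold ext at this
    rw [if_pos (by omega), if_neg (by omega)] at this
    cases this

theorem pu_eq_pf (u : ℕ → A) (n : ℕ) : pu u n = pf u n := by
  unfold pu pf
  have e : Set.range (fun i : ℕ => List.ofFn (fun j : Fin n => u (i + j.val))) =
      List.ofFn '' Set.range (fun i : ℕ => fun j : Fin n => u (i + j.val)) := by
    rw [← Set.range_comp]
    rfl
  rw [e, Set.ncard_image_of_injective _ List.ofFn_injective]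

end Text

theorem thm_ext : S_ext := by
  intro A _ u n
  rw [Text.pc_eq, Text.pu_eq_pf]

theorem thm_upper (h1 : S_psys) (h2 : S_cyc) (h3 : S_ac) : S_upper := by
  intro A _ σ u hu hp
  obtain ⟨m, X, α, cα, e1, e2, hP⟩ := h1 A σ u hu hp
  obtain ⟨C, hC⟩ := h3 (Option A) (Fin m) α X.V cα (ext u) e2 hP (h2 (Fin m) X e1)
  refine ⟨C, fun n => ?_⟩
  have := hC n
  rw [thm_ext, thm_ext] at this
  omega

end Pool.Agent.H149Z.PM
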