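import Pool.Agent.H149Z.PM.St

/-! The final step of `S07589`: from the growth classes of `s(n)` to `s(n) = Θ(p(n)/n)`. -/

set_option autoImplicit false

namespace Pool.Agent.H149Z.PM

open Pool.Agent.H149Z.SU Filter

namespace Tfin

/-- Morse–Hedlund: the complexity of an aperiodic word is strictly increasing. -/
lemma morse_hedlund {A : Type} [Fintype A] (u : ℕ → A) (hu : ¬ EvPer u) (n : ℕ) :
    pf u n + 1 ≤ pf u (n + 1) := by
  classical
  set φ : (k : ℕ) → ℕ → (Fin k → A) := fun k i j => u (i + j.val) with hφ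
  set π : (Fin (n + 1) → A) → (Fin n → A) := fun w j => w j.castSucc with hπ
  have himg : π '' Set.range (φ (n + 1)) = Set.range (φ n) := by
    rw [← Set.range_comp]; rfl
  have hfin : (Set.range (φ (n + 1))).Finite := Set.toFinite _
  have hle : pf u n ≤ pf u (n + 1) := by
    show (Set.range (φ n)).ncard ≤ (Set.range (φ (n + 1))).ncard
    rw [← himg]; exact Set.ncard_image_le hfin
  by_contra hlt
  have heq : (π '' Set.range (φ (n + 1))).ncard = (Set.range (φ (n + 1))).ncard := by
    rw [himg]
    show pf u n = pf u (n + 1)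
    omega
  have hinj := Set.injOn_of_ncard_image_eq heq hfin
  have key : ∀ i j, φ n i = φ n j → φ (n + 1) i = φ (n + 1) j := fun i j h =>
    hinj ⟨i, rfl⟩ ⟨j, rfl⟩ h
  have main : ∀ i j, φ n i = φ n j → ∀ t, φ n (i + t) = φ n (j + t) := by
    intro i j h t
    induction t with
    | zero => exact h
    | succ t ih =>
      funext x
      have := congrFun (key _ _ ih) x.succ
      simp only [hφ, Fin.val_succ] at this ⊢
      convert this using 2 <;> omega
  obtain ⟨i, j, hij, h⟩ := Finite.exists_ne_map_eq_of_infinite (φ n)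
  have fin : ∀ i j, i < j → φ n i = φ n j → EvPer u := by
    intro i j hij h
    refine ⟨i, j - i, by omega, fun m hm => ?_⟩
    have := congrFun (key _ _ (main i j h (m - i))) 0
    simp only [hφ, Fin.val_zero, add_zero] at this
    rw [show m + (j - i) = j + (m - i) by omega, ← this, show i + (m - i) = m by omega]
  rcases lt_or_gt_of_ne hij with h1 | h1
  · exact hu (fin i j h1 h)
  · exact hu (fin j i h1 h.symm)

lemma theta_of_reg (p : ℕ → ℝ) (h0 : 0 ≤ p 0) (h1 : ∀ n, 1 ≤ p (n + 1) - p n) (C : ℝ) (N : ℕ)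
    (hC : 0 < C)
    (ha : ∀ n, N ≤ n → ∀ m, m ≤ n → p (m + 1) - p m ≤ C * (p (n + 1) - p n))
    (hb : ∀ n, N ≤ n → ∀ m, n ≤ 2 * m + 1 → m ≤ n → p (n + 1) - p n ≤ C * (p (m + 1) - p m)) :
    Asymptotics.IsTheta atTop (fun n => p (n + 1) - p n) (fun n => p n / (n : ℝ)) := by
  have hmono : ∀ m k, p m ≤ p (m + k) := by
    intro m k
    induction k with
    | zero => simp
    | succ k ih => have := h1 (m + k); rw [← add_assoc]; linarith
  have hpos : ∀ n, 0 ≤ p n := fun n => by
    have := hmono 0 n
    rw [zero_add] at this; linarith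
  constructor
  · apply Asymptotics.IsBigO.of_bound (2 * C)
    filter_upwards [eventually_ge_atTop N, eventually_ge_atTop 1] with n hn hn1
    have hs := h1 n
    have hnp : (0 : ℝ) < n := by exact_mod_cast hn1
    rw [Real.norm_of_nonneg (by linarith), Real.norm_of_nonneg (div_nonneg (hpos n) hnp.le)]
    have key : ∀ k, n / 2 + k ≤ n → k * (p (n + 1) - p n) ≤ C * p (n / 2 + k) := by
      intro k
      induction k with
      | zero => intro _; simpa using mul_nonneg hC.le (hpos _)
      | succ k ih =>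
        intro hk
        have a1 := ih (by omega)
        have a2 := hb n hn (n / 2 + k) (by omega) (by omega)
        rw [← add_assoc]
        push_cast
        linarith
    have a3 := key (n - n / 2) (by omega)
    rw [show n / 2 + (n - n / 2) = n by omega] at a3
    have a4 : (n : ℝ) ≤ 2 * ((n - n / 2 : ℕ) : ℝ) := by
      exact_mod_cast (show n ≤ 2 * (n - n / 2) by omega)
    rw [← mul_div_assoc, le_div_iff₀ hnp]
    nlinarith
  · apply Asymptotics.IsBigO.of_bound (p 0 + C)
    filter_upwards [eventually_ge_atTop N, eventually_ge_atTop 1] with n hn hn1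
    have hs := h1 n
    have hn1' : (1 : ℝ) ≤ n := by exact_mod_cast hn1
    have hnp : (0 : ℝ) < n := by linarith
    rw [Real.norm_of_nonneg (r := p (n + 1) - p n) (by linarith),
      Real.norm_of_nonneg (div_nonneg (hpos n) hnp.le)]
    have key : ∀ k, k ≤ n → p k ≤ p 0 + k * (C * (p (n + 1) - p n)) := by
      intro k
      induction k with
      | zero => intro _; simp
      | succ k ih =>
        intro hk
        have a1 := ih (by omega)
        have a2 := ha n hn k (by omega)
        push_cast
        linarith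
    have a3 := key n le_rfl
    rw [div_le_iff₀ hnp]
    have a4 : 1 ≤ (p (n + 1) - p n) * n := by nlinarith
    nlinarith

lemma theta_of_model (p : ℕ → ℝ) (h0 : 0 ≤ p 0) (h1 : ∀ n, 1 ≤ p (n + 1) - p n) (R : ℕ)
    (F : ℕ → ℝ) (c1 c2 D : ℝ) (hc1 : 0 < c1) (hc2 : 0 < c2) (hD : 0 < D)
    (hs : ∀ᶠ k in atTop, c1 * F k ≤ p (k + R + 1) - p (k + R) ∧
      p (k + R + 1) - p (k + R) ≤ c2 * F k)
    (hm : ∀ᶠ j in atTop, ∀ k, j ≤ k → F j ≤ F k)
    (hd : ∀ᶠ j in atTop, ∀ k, k ≤ 3 * j → j ≤ k → F k ≤ D * F j) :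
    Asymptotics.IsTheta atTop (fun n => p (n + 1) - p n) (fun n => p n / (n : ℝ)) := by
  obtain ⟨N, hN⟩ := eventually_atTop.1 (hs.and (hm.and hd))
  obtain ⟨M, hM⟩ : ∃ M : ℝ, ∀ m, m < N + R → p (m + 1) - p m ≤ M := by
    refine ⟨∑ m ∈ Finset.range (N + R), (p (m + 1) - p m), fun m hm => ?_⟩
    exact Finset.single_le_sum (f := fun m => p (m + 1) - p m)
      (fun i _ => by have := h1 i; linarith) (Finset.mem_range.2 hm)
  have hq : 0 < c2 / c1 := by positivity
  have hq' : 0 < c2 * D / c1 := by positivity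
  refine theta_of_reg p h0 h1 (|M| + c2 / c1 + c2 * D / c1) (2 * N + 4 * R + 4) (by positivity)
    ?_ ?_
  · intro n hn m hmn
    have s1 := h1 n
    have hM0 := abs_nonneg M
    by_cases hm : m < N + R
    · have := (hM m hm).trans (le_abs_self M)
      nlinarith
    · obtain ⟨j, rfl⟩ : ∃ j, m = j + R := ⟨m - R, by omega⟩
      obtain ⟨k, rfl⟩ : ∃ k, n = k + R := ⟨n - R, by omega⟩
      obtain ⟨⟨-, a1⟩, a2, -⟩ := hN j (by omega)
      obtain ⟨⟨a3, -⟩, -, -⟩ := hN k (by omega)
      have a4 := a2 k (by omega)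
      have a5 : c2 * F k ≤ c2 / c1 * (p (k + R + 1) - p (k + R)) := by
        have := mul_le_mul_of_nonneg_left a3 hq.le
        rwa [← mul_assoc, div_mul_cancel₀ _ hc1.ne'] at this
      nlinarith
  · intro n hn m hnm hmn
    have s1 := h1 m
    have hM0 := abs_nonneg M
    obtain ⟨j, rfl⟩ : ∃ j, m = j + R := ⟨m - R, by omega⟩
    obtain ⟨k, rfl⟩ : ∃ k, n = k + R := ⟨n - R, by omega⟩
    obtain ⟨⟨a1, -⟩, -, a2⟩ := hN j (by omega)
    obtain ⟨⟨-, a3⟩, -, -⟩ := hN k (by omega)
    have a4 := a2 k (by omega) (by omega)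
    have a5 : c2 * D * F j ≤ c2 * D / c1 * (p (j + R + 1) - p (j + R)) := by
      have := mul_le_mul_of_nonneg_left a1 hq'.le
      rwa [← mul_assoc, div_mul_cancel₀ _ hc1.ne'] at this
    have a6 := mul_le_mul_of_nonneg_left a4 hc2.le
    nlinarith

lemma tendsto_log : Tendsto (fun n : ℕ => Real.log n) atTop atTop :=
  Real.tendsto_log_atTop.comp tendsto_natCast_atTop_atTop

lemma tendsto_loglog : Tendsto (fun n : ℕ => Real.log (Real.log n)) atTop atTop :=
  Real.tendsto_log_atTop.comp tendsto_log

lemma log_mono {j k : ℕ} (hj : 1 ≤ j) (h : j ≤ k) : Real.log j ≤ Real.log k :=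
  Real.log_le_log (by exact_mod_cast hj) (by exact_mod_cast h)

lemma log_dbl {j k : ℕ} (hj : 3 ≤ j) (h : j ≤ k) (hk : k ≤ 3 * j) :
    Real.log k ≤ 2 * Real.log j := by
  have h1 : k ≤ j ^ 2 := by nlinarith
  have := log_mono (j := k) (k := j ^ 2) (by omega) h1
  rwa [Nat.cast_pow, Real.log_pow, Nat.cast_ofNat] at this

/-- the dominant term has a positive coefficient -/
lemma dominant (g x : ℕ → ℝ) (a : ℝ) (ha : a ≠ 0) (hg : ∀ n, 1 ≤ g n)
    (hx : ∀ᶠ n in atTop, 0 ≤ x n) (h : ∀ᶠ n in atTop, |g n - a * x n| ≤ |a| / 2 * x n) :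
    0 < a ∧ ∀ᶠ n in atTop, a / 2 * x n ≤ g n ∧ g n ≤ 2 * a * x n := by
  have hpos : 0 < a := by
    by_contra hn
    have hneg : a < 0 := lt_of_le_of_ne (not_lt.1 hn) ha
    obtain ⟨n, h1, h2⟩ := (hx.and h).exists
    rw [abs_of_neg hneg] at h2
    have := (abs_le.1 h2).2
    have := hg n
    nlinarith
  refine ⟨hpos, ?_⟩
  filter_upwards [hx, h] with n h1 h2
  rw [abs_of_pos hpos] at h2
  obtain ⟨h3, h4⟩ := abs_le.1 h2
  constructor <;> nlinarith

lemma theta_of_logClass (p : ℕ → ℝ) (h0 : 0 ≤ p 0) (h1 : ∀ n, 1 ≤ p (n + 1) - p n) (R : ℕ)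
    (h : LogClass fun n => p (n + R + 1) - p (n + R)) :
    Asymptotics.IsTheta atTop (fun n => p (n + 1) - p n) (fun n => p n / (n : ℝ)) := by
  obtain ⟨a, b, C, h⟩ := h
  by_cases ha : a = 0
  · by_cases hb : b = 0
    · refine theta_of_model p h0 h1 R (fun _ => 1) 1 (|C| + 1) 1 one_pos (by positivity) one_pos
        ?_ (by simp) (by simp)
      filter_upwards [eventually_ge_atTop 3] with n hn
      have h2 := h n hn
      simp only [ha, hb, zero_mul, sub_zero] at h2
      have := h1 (n + R)
      have := (abs_le.1 h2).2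
      have := le_abs_self C
      constructor <;> linarith
    · have hb' : 0 < |b| := abs_pos.2 hb
      obtain ⟨hpos, hev⟩ := dominant (fun n => p (n + R + 1) - p (n + R))
        (fun n => Real.log (Real.log n)) b hb (fun n => h1 (n + R))
        (tendsto_loglog.eventually_ge_atTop 0) (by
          filter_upwards [eventually_ge_atTop 3,
            tendsto_loglog.eventually_ge_atTop (C / (|b| / 2))] with n hn hC
          have h2 := h n hn
          simp only [ha, zero_mul, sub_zero] at h2
          rw [div_le_iff₀ (by positivity)] at hC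
          linarith)
      refine theta_of_model p h0 h1 R (fun n => Real.log (Real.log n)) (b / 2) (2 * b) 2
        (by positivity) (by positivity) two_pos hev ?_ ?_
      · filter_upwards [eventually_ge_atTop 1, tendsto_log.eventually_gt_atTop 0] with j hj hl k hk
        exact Real.log_le_log hl (log_mono hj hk)
      · filter_upwards [eventually_ge_atTop 3, tendsto_log.eventually_ge_atTop 2] with
          j hj hl k hk hjk
        have a1 := log_dbl hj hjk hk
        have a2 := log_mono (j := j) (k := k) (by omega) hjk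
        have a3 : Real.log k ≤ Real.log j ^ 2 := by nlinarith
        have a4 := Real.log_le_log (by linarith) a3
        rwa [Real.log_pow, Nat.cast_ofNat] at a4
  · have ha' : 0 < |a| := abs_pos.2 ha
    have hlo : ∀ᶠ n : ℕ in atTop, ‖Real.log (Real.log n)‖ ≤ |a| / (4 * (|b| + 1)) * ‖Real.log n‖ :=
      (Real.isLittleO_log_id_atTop.comp_tendsto tendsto_log).def (by positivity)
    obtain ⟨hpos, hev⟩ := dominant (fun n => p (n + R + 1) - p (n + R))
      (fun n => Real.log n) a ha (fun n => h1 (n + R))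
      (tendsto_log.eventually_ge_atTop 0) (by
        filter_upwards [eventually_ge_atTop 3, hlo, tendsto_log.eventually_ge_atTop 0,
          tendsto_log.eventually_ge_atTop (C / (|a| / 4))] with n hn hl h0 hC
        have h2 := h n hn
        rw [div_le_iff₀ (by positivity)] at hC
        rw [Real.norm_eq_abs, Real.norm_of_nonneg h0] at hl
        have a1 : |b * Real.log (Real.log n)| ≤ |a| / 4 * Real.log n := by
          rw [abs_mul]
          have a2 := mul_le_mul_of_nonneg_left hl (abs_nonneg b)
          have a3 : |b| * (|a| / (4 * (|b| + 1)) * Real.log n)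
              = (|b| / (|b| + 1)) * (|a| / 4 * Real.log n) := by field_simp
          have a4 : |b| / (|b| + 1) ≤ 1 := by
            rw [div_le_one (by positivity)]; linarith
          have a5 := mul_le_mul_of_nonneg_right a4
            (show 0 ≤ |a| / 4 * Real.log n by positivity)
          linarith
        have a6 := abs_add_le (p (n + R + 1) - p (n + R) - a * Real.log n
          - b * Real.log (Real.log n)) (b * Real.log (Real.log n))
        rw [sub_add_cancel] at a6
        linarith)
    refine theta_of_model p h0 h1 R (fun n => Real.log n) (a / 2) (2 * a) 2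
      (by positivity) (by positivity) two_pos hev ?_ ?_
    · filter_upwards [eventually_ge_atTop 1] with j hj k hk
      exact log_mono hj hk
    · filter_upwards [eventually_ge_atTop 3] with j hj k hk hjk
      exact log_dbl hj hjk hk

end Tfin

open Tfin in
theorem thm_fin (h1 : S_nonpushy) (h2 : S_lower) (h3 : S_upper) : S_fin := by
  rintro A _ u ⟨σ, hσ⟩
  by_cases hu : EvPer u
  · exact Or.inl hu
  right
  have hs : ∀ n, (1 : ℝ) ≤ (pf u (n + 1) : ℝ) - pf u n := fun n => by
    have : ((pf u n + 1 : ℕ) : ℝ) ≤ pf u (n + 1) := by exact_mod_cast morse_hedlund u hu n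
    push_cast at this
    linarith
  show Asymptotics.IsTheta atTop (fun n => (pf u (n + 1) : ℝ) - pf u n)
    (fun n => (pf u n : ℝ) / (n : ℝ))
  by_cases hp : Pushy σ u
  · obtain ⟨c, hc, N, hN⟩ := h2 A σ u hσ hp hu
    obtain ⟨C, hC⟩ := h3 A σ u hσ hu
    refine theta_of_model (fun n => (pf u n : ℝ)) (by positivity) hs 0 (fun n => n) c
      (2 * C + 1) 3 hc (by positivity) (by norm_num) ?_ ?_ ?_
    · filter_upwards [eventually_ge_atTop N, eventually_ge_atTop 1] with n hn hn1
      refine ⟨hN n hn, ?_⟩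
      have a1 : ((pf u (n + 1) : ℕ) : ℝ) ≤ ((pf u n + C * (n + 1) : ℕ) : ℝ) := by
        exact_mod_cast hC n
      have a2 : (1 : ℝ) ≤ n := by exact_mod_cast hn1
      have a3 : (0 : ℝ) ≤ C := by positivity
      push_cast at a1
      simp only [add_zero]
      nlinarith
    · exact Eventually.of_forall fun j k hk => by exact_mod_cast hk
    · exact Eventually.of_forall fun j k hk _ => by exact_mod_cast hk
  · obtain ⟨R, hR⟩ := h1 A σ u hσ hp
    exact theta_of_logClass (fun n => (pf u n : ℝ)) (by positivity) hs R hR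

end Pool.Agent.H149Z.PM
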