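import Pool.Agent.H149Z.PM.St

/-! The left end of a family is determined by bounded data at the root. -/

set_option autoImplicit false

namespace Pool.Agent.H149Z.PM

open Pool.Agent.H149Z.SU

namespace Tldet

variable {B : Type} {X : PSys B} {Q K K5 N' k : ℕ}

theorem exists_ne {f : Fin 3 → B} (h : ∃ a b, f a ≠ f b) (j : Fin 3) : ∃ j', f j ≠ f j' := by
  obtain ⟨a, b, hab⟩ := h
  by_cases ha : f j = f a
  · exact ⟨b, by rw [ha]; exact hab⟩
  · exact ⟨a, ha⟩

theorem n_mono {p : Fin 3 → ℕ → ℤ} {n : ℕ → ℤ} (F : FChain X K k p n) (h0 : 0 ≤ n 0) :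
    ∀ i, i ≤ k → n 0 ≤ n i := by
  intro i
  induction i with
  | zero => intro _; exact le_rfl
  | succ i ih =>
    intro hi
    have h1 := ih (by omega)
    obtain ⟨e1, e2, -, -, hs⟩ := F.step i (by omega)
    obtain ⟨a1, a2⟩ := hs 0
    have := X.lb (show p 0 i ≤ p 0 i + n i by omega)
    omega

theorem p_le {p : Fin 3 → ℕ → ℤ} {n : ℕ → ℤ} (F : FChain X K k p n) (j : Fin 3) :
    ∀ i, i ≤ k → p j i ≤ X.c^[i] (p j 0) := by
  intro i
  induction i with
  | zero => intro _; exact le_rfl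
  | succ i ih =>
    intro hi
    have h1 := ih (by omega)
    obtain ⟨e1, e2, -, -, hs⟩ := F.step i (by omega)
    obtain ⟨a1, -⟩ := hs j
    rw [Function.iterate_succ_apply']
    have := X.mono.monotone h1
    omega

theorem exists_e (G : PGood X Q K) {a b : ℤ} (h : X.V (a - 1) ≠ X.V (b - 1)) :
    ∃ e : ℕ, e ≤ K ∧ Agr X.V X.V (X.c a - e) (X.c b - e) e ∧
      X.V (X.c a - e - 1) ≠ X.V (X.c b - e - 1) := by
  classical
  have h1 := G.delayL a b h
  have hex : ∃ e : ℕ, e ≤ K ∧ X.V (X.c a - e - 1) ≠ X.V (X.c b - e - 1) := by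
    by_contra hc
    push Not at hc
    apply h1
    intro t t0 tK
    obtain ⟨e, he⟩ := Int.eq_ofNat_of_zero_le (show 0 ≤ (K : ℤ) - t - 1 by omega)
    have := hc e (by omega)
    rwa [show X.c a - e - 1 = X.c a - K + t by omega,
      show X.c b - e - 1 = X.c b - K + t by omega] at this
  refine ⟨Nat.find hex, (Nat.find_spec hex).1, ?_, (Nat.find_spec hex).2⟩
  intro t t0 tK
  obtain ⟨e, he⟩ := Int.eq_ofNat_of_zero_le (show 0 ≤ (Nat.find hex : ℤ) - t - 1 by omega)
  have hlt : e < Nat.find hex := by omega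
  have h2 := Nat.find_min hex hlt
  have h3 := (Nat.find_spec hex).1
  by_contra hne
  apply h2
  refine ⟨by omega, ?_⟩
  rwa [show X.c a - e - 1 = X.c a - Nat.find hex + t by omega,
    show X.c b - e - 1 = X.c b - Nat.find hex + t by omega]

/-- the pair chain of two branches that fork at the root -/
theorem pair_chain (G : PGood X Q K) {p : Fin 3 → ℕ → ℤ} {n : ℕ → ℤ} (F : FChain X K k p n)
    (h0 : 0 ≤ n 0) (j : Fin 3) :
    ∃ P q : ℕ → ℤ, P 0 = p j 0 ∧ (∀ i, LChain X K i P q) ∧ ∀ i, i ≤ k → P i ≤ p j i := by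
  obtain ⟨j', hj'⟩ := exists_ne (f := fun j => X.V (p j 0 - 1)) (F.forkL 0 (Nat.zero_le _)) j
  have hE : ∀ a b : ℤ, ∃ e : ℕ, X.V (a - 1) ≠ X.V (b - 1) → e ≤ K ∧
      Agr X.V X.V (X.c a - e) (X.c b - e) e ∧ X.V (X.c a - e - 1) ≠ X.V (X.c b - e - 1) := by
    intro a b
    by_cases h : X.V (a - 1) ≠ X.V (b - 1)
    · obtain ⟨e, he⟩ := exists_e G h
      exact ⟨e, fun _ => he⟩
    · exact ⟨0, fun h' => absurd h' h⟩
  choose E hE using hE
  let PQ : ℕ → ℤ × ℤ := fun i => Nat.rec (p j 0, p j' 0)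
    (fun _ x => (X.c x.1 - E x.1 x.2, X.c x.2 - E x.1 x.2)) i
  have s1 : ∀ i, (PQ (i + 1)).1 = X.c (PQ i).1 - E (PQ i).1 (PQ i).2 := fun i => rfl
  have s2 : ∀ i, (PQ (i + 1)).2 = X.c (PQ i).2 - E (PQ i).1 (PQ i).2 := fun i => rfl
  have hfork : ∀ i, X.V ((PQ i).1 - 1) ≠ X.V ((PQ i).2 - 1) := by
    intro i
    induction i with
    | zero => exact hj'
    | succ i ih => rw [s1, s2]; exact (hE _ _ ih).2.2
  refine ⟨fun i => (PQ i).1, fun i => (PQ i).2, rfl, fun i => ⟨fun i _ => hfork i, fun i _ => ?_⟩,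
    ?_⟩
  · refine ⟨E (PQ i).1 (PQ i).2, (hE _ _ (hfork i)).1, s1 i, s2 i, ?_⟩
    rw [s1, s2]
    exact (hE _ _ (hfork i)).2.1
  · have key : ∀ i, i ≤ k → (PQ i).1 ≤ p j i ∧ p j i - (PQ i).1 = p j' i - (PQ i).2 ∧
        Agr X.V X.V (PQ i).1 (PQ i).2 (p j i - (PQ i).1) := by
      intro i
      induction i with
      | zero =>
        intro _
        refine ⟨le_rfl, ?_, ?_⟩
        · change p j 0 - p j 0 = p j' 0 - p j' 0
          ring
        · intro t t0 t1
          change t < p j 0 - p j 0 at t1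
          omega
      | succ i ih =>
        intro hi
        obtain ⟨b1, b2, b3⟩ := ih (by omega)
        obtain ⟨e1, e2, -, -, hs⟩ := F.step i (by omega)
        obtain ⟨a1, a2⟩ := hs j
        obtain ⟨a1', -⟩ := hs j'
        obtain ⟨c1, c2, c3⟩ := hE _ _ (hfork i)
        have d1 := X.cut_at b3 (x := p j i) (y := p j' i) b1 (by omega) (by omega)
        have d2 := X.agr b3
        rw [show (PQ i).1 + (p j i - (PQ i).1) = p j i by ring] at d2
        have d3 := X.mono.monotone b1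
        have d4 := n_mono F h0 i (by omega)
        have d5 := X.mono.monotone (show p j i ≤ p j i + n i by omega)
        have d6 := F.com (i + 1) hi j j'
        rw [s1, s2]
        have hle : X.c (PQ i).1 - E (PQ i).1 (PQ i).2 ≤ p j (i + 1) := by
          by_contra hc
          apply c3
          exact d6.at (by omega) (by omega) (by omega)
        refine ⟨hle, by omega, ?_⟩
        intro t t0 t1
        by_cases ht : t < E (PQ i).1 (PQ i).2
        · exact c2 t t0 ht
        · exact d2.at (by omega) (by omega) (by omega)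
    exact fun i hi => (key i hi).1

/-- no escape outside the periodic mode -/
theorem noesc {D1 : ℕ} (G : PGood X Q K) (hE : Esc X Q K K5 D1) (N' : ℕ) :
    ∃ D : ℕ, ∀ (k : ℕ) (p : Fin 3 → ℕ → ℤ) (n : ℕ → ℤ), FChain X K k p n → 0 ≤ n 0 →
      ∀ j i, i ≤ k → ¬ Per X.V Q (p j i + K5) (p j i + K5 + N') →
        X.c^[i] (p j 0 - D) ≤ p j i := by
  obtain ⟨D, hD⟩ := hE 0
  refine ⟨D + D1 + K5 + N', fun k p n F h0 j i hi hn => ?_⟩
  obtain ⟨P, q, e0, hL, hle⟩ := pair_chain G F h0 j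
  by_contra hc
  push Not at hc
  push_cast at hc
  have a1 := X.iter_lb i (show p j 0 - (D + D1 + K5 + N') ≤ p j 0 - D by omega)
  have a2 := hle i hi
  obtain ⟨d, hd, -, -, hp⟩ := hD i P q (hL i) (by rw [e0]; omega)
  rw [e0] at hp
  have a3 := X.iter_lb i (show p j 0 - (D + D1 + K5 + N') ≤ p j 0 - d by omega)
  exact hn (hp.mono (by omega) (by omega))

theorem pers_step (hP : Pers X Q K K5 N') {p : Fin 3 → ℕ → ℤ} {n : ℕ → ℤ} (F : FChain X K k p n)
    (j : Fin 3) {i : ℕ} (hi : i < k) {x : ℤ} (h1 : p j i + K5 + N' ≤ x) (h2 : x ≤ p j i + n i)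
    (h3 : Per X.V Q (p j i + K5) x) :
    p j (i + 1) + K5 + N' ≤ X.c x ∧ X.c x ≤ p j (i + 1) + n (i + 1) ∧
      Per X.V Q (p j (i + 1) + K5) (X.c x) := by
  obtain ⟨j', hj'⟩ := exists_ne (f := fun j => X.V (p j (i + 1) - 1)) (F.forkL (i + 1) hi) j
  obtain ⟨e1, e2, he1, -, hs⟩ := F.step i hi
  obtain ⟨a1, a2⟩ := hs j
  obtain ⟨a1', -⟩ := hs j'
  have b1 := X.lb (show p j i ≤ x by omega)
  have b2 := X.mono.monotone h2
  refine ⟨by omega, by omega, ?_⟩
  rw [a1, a1'] at hj'
  rw [a1]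
  refine hP (p j i) (p j' i) x e1 ((F.com i hi.le j j').sub le_rfl (by omega) (by omega)) h1 h3
    (by omega) (by omega) ?_ hj'
  exact (F.com (i + 1) hi j j').sub (by omega) (by omega) (by omega)

theorem pers_iter (hP : Pers X Q K K5 N') {p : Fin 3 → ℕ → ℤ} {n : ℕ → ℤ} (F : FChain X K k p n)
    (j : Fin 3) {T : ℕ} {x : ℤ} (h1 : p j T + K5 + N' ≤ x) (h2 : x ≤ p j T + n T)
    (h3 : Per X.V Q (p j T + K5) x) : ∀ s : ℕ, T + s ≤ k →
    p j (T + s) + K5 + N' ≤ X.c^[s] x ∧ X.c^[s] x ≤ p j (T + s) + n (T + s) ∧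
      Per X.V Q (p j (T + s) + K5) (X.c^[s] x) := by
  intro s
  induction s with
  | zero => intro _; exact ⟨h1, h2, h3⟩
  | succ s ih =>
    intro hs
    obtain ⟨a, b, c⟩ := ih (by omega)
    rw [Function.iterate_succ_apply']
    exact pers_step hP F j (i := T + s) (by omega) a b c

theorem pl_branch {p : Fin 3 → ℕ → ℤ} {n : ℕ → ℤ} (F : FChain X K k p n)
    (h0 : (K5 : ℤ) + N' ≤ n 0) {i : ℕ} (hi : i ≤ k) (j j' : Fin 3)
    (h : Per X.V Q (p j i + K5) (p j i + K5 + N')) :
    Per X.V Q (p j' i + K5) (p j' i + K5 + N') := by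
  have a1 := n_mono F (by omega) i hi
  have := h.agr (by omega) (F.com i hi j j') (by omega) (by omega)
  exact this.mono (by omega) (by omega)

/-- one half of the uniqueness of the left overhang -/
theorem e_not_lt {p p' : Fin 3 → ℕ → ℤ} {n n' : ℕ → ℤ} (F : FChain X K k p n)
    (F' : FChain X K k p' n') (h0' : 0 ≤ n' 0) {i : ℕ} (hi : i < k) {e e' : ℕ} (he : e ≤ K)
    (h1 : ∀ j, p j (i + 1) = X.c (p j i) - e) (h1' : ∀ j, p' j (i + 1) = X.c (p' j i) - e')
    (hA : ∀ j, Agr X.V X.V (X.c (p j i) - (K + 1)) (X.c (p' j i) - (K + 1)) (K + 1)) :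
    ¬ e < e' := by
  intro hlt
  obtain ⟨j1, j2, hne⟩ := F.forkL (i + 1) hi
  apply hne
  obtain ⟨e1, e2, -, -, hs⟩ := F'.step i hi
  obtain ⟨-, a2⟩ := hs j1
  have b0 := n_mono F' h0' i hi.le
  have b1 := X.mono.monotone (show p' j1 i ≤ p' j1 i + n' i by omega)
  have c1 := h1 j1
  have c2 := h1 j2
  have c1' := h1' j1
  have c2' := h1' j2
  have d1 : X.V (p j1 (i + 1) - 1) = X.V (X.c (p' j1 i) - e - 1) :=
    (hA j1).at (by omega) (by omega) (by omega)
  have d2 : X.V (p j2 (i + 1) - 1) = X.V (X.c (p' j2 i) - e - 1) :=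
    (hA j2).at (by omega) (by omega) (by omega)
  rw [d1, d2]
  exact (F'.com (i + 1) hi j1 j2).at (by omega) (by omega) (by omega)

theorem brk_not_lt {a a' x x' z z' m : ℤ} (hQ : 0 ≤ (Q : ℤ)) (hA : Agr X.V X.V a a' m)
    (hx : x - a = x' - a') (hxm : x ≤ a + m) (hz' : a' ≤ z') (hz'x : z' + Q < x')
    (hb : X.V z' ≠ X.V (z' + Q)) (hp : Per X.V Q (z + 1) x) : ¬ z - a < z' - a' := by
  intro hlt
  apply hb
  have h1 := hp (z' - a' + a) (by omega) (by omega)
  rw [← hA.at (x := z' - a' + a) (y := z') (by omega) (by omega) (by omega),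
    ← hA.at (x := z' - a' + a + Q) (y := z' + Q) (by omega) (by omega) (by omega)]
  exact h1

end Tldet

open Tldet in
theorem thm_ldet : S_ldet := by
  classical
  intro B X Q K K5 N' D1 G hP hE hQ
  obtain ⟨D, hD⟩ := noesc G hE N'
  refine ⟨D + K + 1, fun Ds hDs N1 hN1 k p p' n n' F F' h0 h0' hA => ?_⟩
  have hI := fun j i => X.iter_agr i (hA j)
  have hend : ∀ j, p j 0 - (Ds : ℤ) + (Ds + N1) = p j 0 + N1 := fun j => by ring
  simp only [hend] at hI
  -- alignment of the images of the root positions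
  have hal : ∀ j i, X.c^[i] (p j 0) - X.c^[i] (p j 0 - Ds) =
      X.c^[i] (p' j 0) - X.c^[i] (p' j 0 - Ds) := fun j i =>
    (hI j i).2 _ _ (by omega) (by omega) (by omega)
  have hS : ∀ i, i ≤ k → (∀ i', i' < i → ¬ Per X.V Q (p 0 i' + K5) (p 0 i' + K5 + N')) →
      ∀ j, p j i - X.c^[i] (p j 0) = p' j i - X.c^[i] (p' j 0) ∧
        X.c^[i] (p j 0 - Ds) ≤ p j i := by
    intro i
    induction i with
    | zero => intro _ _ j; simp
    | succ i ih =>
      intro hi hn
      have ih' := ih (by omega) (fun i' h => hn i' (by omega))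
      obtain ⟨e1, e2, he1, -, hs⟩ := F.step i hi
      obtain ⟨e1', e2', he1', -, hs'⟩ := F'.step i hi
      have hfacts : ∀ j, X.c^[i + 1] (p j 0 - Ds) + (K + 1) ≤ X.c (p j i) ∧
          X.c (p j i) ≤ X.c^[i + 1] (p j 0 + N1) ∧
          X.c (p j i) - X.c^[i + 1] (p j 0 - Ds) = X.c (p' j i) - X.c^[i + 1] (p' j 0 - Ds) := by
        intro j
        have a1 := hD k p n F (by omega) j i (by omega) (fun h =>
          hn i (by omega) (pl_branch F (by omega) (by omega) j 0 h))
        have a2 := X.iter_lb (i + 1) (show p j 0 - Ds ≤ p j 0 - D by omega)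
        have a3 := X.mono.monotone a1
        have a4 := p_le F j i (by omega)
        have a5 := (X.iter_mono i).monotone (show p j 0 ≤ p j 0 + N1 by omega)
        have a6 := X.mono.monotone (a4.trans a5)
        have a7 := hal j i
        obtain ⟨a8, a9⟩ := ih' j
        have a10 := X.cut_at (hI j i).1 (x := p j i) (y := p' j i) a9 (by omega) (by omega)
        simp only [Function.iterate_succ_apply'] at a2 ⊢
        exact ⟨by omega, a6, a10⟩
      have hA1 : ∀ j, Agr X.V X.V (X.c (p j i) - (K + 1)) (X.c (p' j i) - (K + 1)) (K + 1) := by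
        intro j
        obtain ⟨a1, a2, a3⟩ := hfacts j
        exact (hI j (i + 1)).1.sub (by omega) (by omega) (by omega)
      have n1 := e_not_lt F F' (by omega) hi he1 (fun j => (hs j).1) (fun j => (hs' j).1) hA1
      have n2 := e_not_lt F' F (by omega) hi he1' (fun j => (hs' j).1) (fun j => (hs j).1)
        (fun j => (hA1 j).symm)
      intro j
      obtain ⟨a1, a2, a3⟩ := hfacts j
      have a4 := hal j (i + 1)
      have a5 := (hs j).1
      have a6 := (hs' j).1
      exact ⟨by omega, by omega⟩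
  have hnm := n_mono F (by omega)
  have hnm' := n_mono F' (by omega)
  refine ⟨fun hk _ => ?_, fun hk hk' j z z' z1 z1' z2 z2' zb zb' zp zp' => ?_⟩
  · refine hS k le_rfl (fun i' hi' h => hk ?_) 0
    have a1 := hnm i' hi'.le
    obtain ⟨b1, -, b3⟩ := pers_iter hP F 0 (T := i') le_rfl (by omega) h (k - i') (by omega)
    rw [show i' + (k - i') = k by omega] at b1 b3
    exact b3.mono le_rfl b1
  · have hex : ∃ T, Per X.V Q (p 0 T + K5) (p 0 T + K5 + N') := ⟨k, hk⟩
    have hTk : Nat.find hex ≤ k := Nat.find_min' hex hk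
    have hT := Nat.find_spec hex
    have hS' := hS (Nat.find hex) hTk (fun i' h => Nat.find_min hex h) j
    generalize Nat.find hex = T at hTk hT hS'
    obtain ⟨s, rfl⟩ := Nat.exists_eq_add_of_le hTk
    obtain ⟨a1, a2⟩ := hS'
    have a3 := pl_branch F (by omega) hTk 0 j hT
    have a4 := p_le F j T hTk
    have a5 := X.iter_lb T (show p j 0 ≤ p j 0 + N1 by omega)
    have a6 := hal j T
    have a7 : Per X.V Q (p' j T + K5) (p' j T + K5 + N') :=
      (a3.agr (by omega) (hI j T).1 (by omega) (by omega)).mono (by omega) (by omega)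
    have a8 := hnm T hTk
    have a9 := hnm' T hTk
    obtain ⟨b1, -, b3⟩ := pers_iter hP F j (T := T) le_rfl (by omega) a3 s le_rfl
    obtain ⟨b1', -, b3'⟩ := pers_iter hP F' j (T := T) le_rfl (by omega) a7 s le_rfl
    have c1 := zp.glue b3 (by omega)
    have c1' := zp'.glue b3' (by omega)
    have hit : ∀ y : ℤ, X.c^[T + s] y = X.c^[s] (X.c^[T] y) := fun y => by
      rw [add_comm, Function.iterate_add_apply]
    have d1 := (X.iter_agr s (hI j T).1).2 (p j T + K5 + N') (p' j T + K5 + N') (by omega)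
      (by omega) (by omega)
    rw [← hit, ← hit] at d1
    have d2 := (X.iter_mono s).monotone
      (show p j T + K5 + N' ≤ X.c^[T] (p j 0 + N1) by omega)
    rw [← hit] at d2
    have d3 := hal j (T + s)
    have hAk := (hI j (T + s)).1
    have n1 := brk_not_lt (by omega) hAk d1 (by omega) z1' (by omega) zb' c1
    have n2 := brk_not_lt (by omega) hAk.symm d1.symm (by omega) z1 (by omega) zb c1'
    omega

end Pool.Agent.H149Z.PM
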