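import Pool.Agent.H149Z.PM.St
import Pool.Agent.H149Z.SU.Main
import Pool.Agent.H149Z.SU.Tfinal

/-! `thm_nonpushy` (written by helper938). -/

set_option autoImplicit false

namespace Pool.Agent.H149Z.PM

open Pool.Agent.H149Z.SU

namespace Tnonpushy

open Tfinal

theorem ncard_range_eq {I X Y : Type} [Nonempty I] (f : I → X) (g : I → Y)
    (h : ∀ p q, f p = f q ↔ g p = g q) : (Set.range f).ncard = (Set.range g).ncard := by
  classical
  let φ : X → Y := fun x => g (Function.invFun f x)
  have hφ : ∀ p, φ (f p) = g p := fun p =>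
    (h _ _).1 (Function.invFun_eq (f := f) ⟨p, rfl⟩)
  have e : Set.range g = φ '' Set.range f := by
    ext y
    constructor
    · rintro ⟨p, rfl⟩
      exact ⟨f p, ⟨p, rfl⟩, hφ p⟩
    · rintro ⟨_, ⟨p, rfl⟩, rfl⟩
      exact ⟨p, (hφ p).symm⟩
  rw [e, Set.InjOn.ncard_image]
  rintro _ ⟨p, rfl⟩ _ ⟨q, rfl⟩ hpq
  rw [hφ, hφ] at hpq
  exact (h p q).2 hpq

theorem pc_shift {B : Type} (U : ℤ → B) (n : ℕ) (s : ℤ) :
    pc U n = (Set.range fun p : ℤ => fac U (p - s) n).ncard := by
  unfold pc
  congr 1
  ext w
  constructor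
  · rintro ⟨p, rfl⟩
    exact ⟨p + s, by simp⟩
  · rintro ⟨p, rfl⟩
    exact ⟨p - s, rfl⟩

/-- The higher block presentation. -/
def blk {B : Type} (U : ℤ → B) (R : ℕ) (i : ℤ) : Fin (2 * R + 1) → B :=
  fun t => U (i - R + (t.val : ℤ))

theorem blk_eq {B : Type} (U : ℤ → B) (R : ℕ) (i j : ℤ) :
    blk U R i = blk U R j ↔ Agr U U (i - R) (j - R) (2 * R + 1) := by
  constructor
  · intro h t h0 h1
    obtain ⟨k, rfl⟩ := Int.eq_ofNat_of_zero_le h0
    exact congrFun h ⟨k, by omega⟩
  · intro h
    funext t
    exact h t.val (by omega) (by have := t.isLt; omega)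

theorem blk_agr {B : Type} (U : ℤ → B) (R : ℕ) (p q n : ℤ) (hn : 1 ≤ n) :
    Agr (blk U R) (blk U R) p q n ↔ Agr U U (p - R) (q - R) (n + 2 * R) := by
  constructor
  · intro h t h0 h1
    by_cases ht : t < n
    · exact ((blk_eq U R _ _).1 (h t h0 ht)).at (by omega) (by omega) (by omega)
    · exact ((blk_eq U R _ _).1 (h (n - 1) (by omega) (by omega))).at (by omega) (by omega)
        (by omega)
  · intro h t h0 h1
    exact (blk_eq U R _ _).2 (h.sub (by omega) (by omega) (by omega))

theorem pc_blk {B : Type} (U : ℤ → B) (R n : ℕ) (hn : 1 ≤ n) :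
    pc (blk U R) n = pc U (n + 2 * R) := by
  rw [pc_shift (blk U R) n 0, pc_shift U (n + 2 * R) R]
  apply ncard_range_eq
  intro p q
  rw [fac_eq_iff, fac_eq_iff, sub_zero, sub_zero, blk_agr U R p q n (by omega)]
  push_cast
  rfl

theorem agr_img {B : Type} {τ : B → List B} {U : ℤ → B} {c : ℤ → ℤ} (hp : IsParse τ U c U)
    {i j : ℤ} {m : ℕ} (hA : Agr U U i j m) : Agr U U (c i) (c j) (c (i + m) - c i) := by
  have h1 := (fac_eq_iff U U i j m).2 hA
  have h2 := hp.flatMap_fac i m
  have h3 := hp.flatMap_fac j m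
  rw [h1, h3] at h2
  have h4 := fac_eq_len h2
  rw [h4, fac_eq_iff] at h2
  intro t h0 ht
  exact (h2 t h0 (by omega)).symm

theorem coarse {B : Type} [Fintype B] (τ : B → List B) (U : ℤ → B) (c : ℤ → ℤ)
    (hp : IsParse τ U c U) (R0 : ℕ) (hR : 1 ≤ R0) (hexp : ∀ i, c i + 2 * R0 ≤ c (i + R0)) :
    LogClass (fun n => (pc U (n + 4 * R0 + 1) : ℝ) - pc U (n + 4 * R0)) := by
  classical
  have hmono : ∀ i j, i ≤ j → c i ≤ c j := by
    intro i j hij
    have := hp.le_add (r := 0) (fun _ => Nat.zero_le _) i (j - i) (by omega)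
    rw [show i + (j - i) = j by ring] at this
    simpa using this
  have hex : ∀ i : ℤ, ∃ d : ℤ, (∃ k : ℕ, k < R0 ∧ d = c (i - k) + 2 * k) ∧
      ∀ k : ℕ, k < R0 → c (i - k) + 2 * k ≤ d := by
    intro i
    obtain ⟨k, hk, hmax⟩ := Finset.exists_max_image (Finset.range R0)
      (fun k : ℕ => c (i - k) + 2 * k) ⟨0, by simp; omega⟩
    exact ⟨_, ⟨k, by simpa using hk, rfl⟩, fun k' hk' => hmax k' (by simpa using hk')⟩
  choose d hd1 hd2 using hex
  have dlo : ∀ i, c i ≤ d i := by
    intro i
    simpa using hd2 i 0 (by omega)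
  have dhi : ∀ i, d i ≤ c i + 2 * R0 := by
    intro i
    obtain ⟨k, hk, e⟩ := hd1 i
    have := hmono (i - k) i (by omega)
    omega
  have dstep : ∀ i, d i + 2 ≤ d (i + 1) := by
    intro i
    obtain ⟨k, hk, e⟩ := hd1 i
    by_cases h : k + 1 < R0
    · have := hd2 (i + 1) (k + 1) h
      rw [show i + 1 - ((k + 1 : ℕ) : ℤ) = i - k by push_cast; ring] at this
      push_cast at this
      omega
    · have a1 := hexp (i - k)
      rw [show i - k + R0 = i + 1 by omega] at a1
      have := dlo (i + 1)
      omega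
  set R : ℕ := 2 * R0 with hRdef
  have hexp2 : ∀ i, c i + 2 * R ≤ c (i + R) := by
    intro i
    have a1 := hexp i
    have a2 := hexp (i + R0)
    rw [show i + R0 + R0 = i + R by omega] at a2
    omega
  have dloc : ∀ i j : ℤ, Agr U U (i - R) (j - R) (2 * R + 1) → ∀ s : ℤ, 0 ≤ s → s ≤ 1 →
      d (i + s) - c (i - R) ≤ d (j + s) - c (j - R) := by
    intro i j hA s h0 h1
    obtain ⟨k, hk, e⟩ := hd1 (i + s)
    have a1 := hp.cut_at hp hA (x := i + s - k) (y := j + s - k) (by omega) (by omega) (by omega)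
    have a2 := hd2 (j + s) k hk
    omega
  have key : ∀ i j : ℤ, blk U R i = blk U R j →
      fac (blk U R) (d i) (d (i + 1) - d i).toNat = fac (blk U R) (d j) (d (j + 1) - d j).toNat := by
    intro i j h
    have hA := (blk_eq U R i j).1 h
    have a1 := dloc i j hA 0 le_rfl (by omega)
    have a2 := dloc j i hA.symm 0 le_rfl (by omega)
    have a3 := dloc i j hA 1 (by omega) le_rfl
    have a4 := dloc j i hA.symm 1 (by omega) le_rfl
    rw [add_zero, add_zero] at a1 a2
    have b1 := dstep i
    rw [show d (j + 1) - d j = d (i + 1) - d i by omega, fac_eq_iff,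
      blk_agr U R _ _ _ (by omega)]
    have hA' : Agr U U (i - R) (j - R) ((2 * R + 1 : ℕ) : ℤ) := by
      push_cast
      exact hA
    have b2 := agr_img hp hA'
    have b3 := hexp2 (i - R)
    rw [show i - R + R = i by ring] at b3
    have b4 := hexp2 (i + 1)
    rw [show i - R + ((2 * R + 1 : ℕ) : ℤ) = i + 1 + R by push_cast; ring] at b2
    have b5 := dlo i
    have b6 := dhi (i + 1)
    exact b2.sub (by omega) (by omega) (by omega)
  let σ' : (Fin (2 * R + 1) → B) → List (Fin (2 * R + 1) → B) := fun x =>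
    if h : ∃ i, blk U R i = x then
      fac (blk U R) (d h.choose) (d (h.choose + 1) - d h.choose).toNat else [x, x]
  have hσ : ∀ i, σ' (blk U R i) = fac (blk U R) (d i) (d (i + 1) - d i).toNat := by
    intro i
    have h : ∃ j, blk U R j = blk U R i := ⟨i, rfl⟩
    simp only [σ', dif_pos h]
    exact key _ _ h.choose_spec
  let X : Sys (Fin (2 * R + 1) → B) :=
    { σ := σ'
      U := blk U R
      c := d
      two := by
        intro x
        by_cases h : ∃ i, blk U R i = x
        · obtain ⟨i, rfl⟩ := h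
          rw [hσ, fac_length]
          have := dstep i
          omega
        · simp only [σ', dif_neg h]
          simp
      parse := by
        constructor
        · intro i
          rw [hσ, fac_length]
          have := dstep i
          omega
        · intro i j hj
          simp only [hσ, fac_getElem] }
  obtain ⟨α, β, C, hC⟩ := main_holds _ X
  refine ⟨α, β, C, fun n hn => ?_⟩
  have := hC n hn
  simp only [X] at this
  rw [pc_blk U R (n + 1) (by omega), pc_blk U R n (by omega)] at this
  beta_reduce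
  rw [show n + 4 * R0 + 1 = n + 1 + 2 * R by omega, show n + 4 * R0 = n + 2 * R by omega]
  exact this

variable {A : Type}

theorem grow_ev [Fintype A] (σ : A → List A) (b : A) (h : Grow σ b) (m : ℕ) :
    ∃ N, ∀ n, N ≤ n → m ≤ (it σ n [b]).length := by
  by_contra hc
  push Not at hc
  have hinf : {n : ℕ | (it σ n [b]).length < m}.Infinite := by
    apply Set.infinite_of_not_bddAbove
    rintro ⟨N, hN⟩
    obtain ⟨n, h1, h2⟩ := hc (N + 1)
    have := hN h2
    omega
  obtain ⟨x, -, y, -, hxy, e⟩ := hinf.exists_lt_map_eq_of_mapsTo (f := fun n => it σ n [b])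
    (t := {w : List A | w.length < m}) (fun n hn => hn) (List.finite_length_lt A m)
  have hred : ∀ k, ∃ k', k' < y ∧ it σ k [b] = it σ k' [b] := by
    intro k
    induction k using Nat.strong_induction_on with
    | _ k ih =>
      by_cases hk : k < y
      · exact ⟨k, hk, rfl⟩
      · obtain ⟨k', h1, h2⟩ := ih (k - y + x) (by omega)
        refine ⟨k', h1, ?_⟩
        rw [← h2, it_add, show it σ x [b] = it σ y [b] from e, ← it_add]
        congr 1
        omega
  obtain ⟨n, hn⟩ := h ((Finset.range y).sup fun k => (it σ k [b]).length)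
  obtain ⟨k', h1, h2⟩ := hred n
  have : (it σ k' [b]).length ≤ (Finset.range y).sup fun k => (it σ k [b]).length :=
    Finset.le_sup (f := fun k => (it σ k [b]).length) (Finset.mem_range.2 h1)
  change _ < (it σ n [b]).length at hn
  rw [h2] at hn
  omega

theorem exists_power [Fintype A] (σ : A → List A) (L : ℕ) :
    ∃ N, 1 ≤ N ∧ ∀ b, Grow σ b → L ≤ (it σ N [b]).length := by
  have : ∀ b, ∃ N, Grow σ b → ∀ n, N ≤ n → L ≤ (it σ n [b]).length := by
    intro b
    by_cases h : Grow σ b
    · obtain ⟨N, hN⟩ := grow_ev σ b h L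
      exact ⟨N, fun _ => hN⟩
    · exact ⟨0, fun h' => absurd h' h⟩
  choose N hN using this
  refine ⟨Finset.univ.sup N + 1, by omega, fun b hb => hN b hb _ ?_⟩
  have : N b ≤ Finset.univ.sup N := Finset.le_sup (Finset.mem_univ b)
  omega

/-- The morphism extended to the new letter. -/
def osub (τ : A → List A) (L : ℕ) : Option A → List (Option A)
  | none => List.replicate L none
  | some b => (τ b).map some

theorem parse_ext (τ : A → List A) (L : ℕ) (a : A) (u : ℕ → A)
    (hg : ∀ i, ∃ m, i < (it τ m [a]).length)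
    (hu : ∀ m i : ℕ, i < (it τ m [a]).length → (it τ m [a])[i]? = some (u i)) :
    IsParse (osub τ L) (UU u)
      (fun i => if i < 0 then L * i else (((pre u i.toNat).flatMap τ).length : ℤ)) (UU u) := by
  constructor
  · intro i
    by_cases hi : i < 0
    · have : UU u i = none := by simp [UU, hi]
      rw [this]
      by_cases h1 : i + 1 < 0
      · simp only [hi, h1, if_true, osub, List.length_replicate]
        ring
      · have : i = -1 := by omega
        subst this
        simp [pre, osub]
    · obtain ⟨n, rfl⟩ := Int.eq_ofNat_of_zero_le (not_lt.1 hi)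
      have : UU u n = some (u n) := by simp [UU]
      rw [this]
      have h1 : ¬ ((n : ℤ) + 1 < 0) := by omega
      have e : ((n : ℤ) + 1).toNat = n + 1 := by omega
      simp only [hi, h1, if_false, e, Int.toNat_natCast, pre_succ, osub]
      simp
  · intro i j hj
    by_cases hi : i < 0
    · have e : UU u i = none := by simp [UU, hi]
      simp only [e, osub, List.length_replicate] at hj
      simp only [e, hi, if_true, osub, List.getElem_replicate]
      have : (L : ℤ) * i + j < 0 := by
        have : (j : ℤ) < L := by exact_mod_cast hj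
        nlinarith
      simp [UU, this]
    · obtain ⟨n, rfl⟩ := Int.eq_ofNat_of_zero_le (not_lt.1 hi)
      have e : UU u n = some (u n) := by simp [UU]
      simp only [e, osub, List.length_map] at hj
      simp only [e, hi, if_false, Int.toNat_natCast, osub, List.getElem_map]
      rw [← fix τ a u hg hu n j hj, ← Nat.cast_add]
      unfold UU
      rw [if_neg (by omega), Int.toNat_natCast]

theorem pu_eq (u : ℕ → A) (n : ℕ) : pu u n = pf u n := by
  unfold pu pf
  apply ncard_range_eq
  intro p q
  exact List.ofFn_injective.eq_iff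

end Tnonpushy

open Tnonpushy Tfinal in
theorem thm_nonpushy : S_nonpushy := by
  intro A _ σ u hH hP
  unfold Pushy at hP
  push Not at hP
  obtain ⟨R0, hR0⟩ := hP
  have hR : 1 ≤ R0 := by
    obtain ⟨j, hj, -⟩ := hR0 0
    omega
  obtain ⟨N, hN1, hN⟩ := exists_power σ (2 * R0)
  have hp := parse_ext (fun b => it σ N [b]) (2 * R0) (u 0) u (by
    intro i
    obtain ⟨M, hM⟩ := grow_ev σ (u 0) hH.2 (i + 1)
    refine ⟨M, ?_⟩
    rw [it_it]
    exact hM _ (Nat.le_mul_of_pos_left _ hN1)) (by
    intro m i
    rw [it_it]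
    exact hH.1 _ _)
  generalize (fun i : ℤ => if i < 0 then ((2 * R0 : ℕ) : ℤ) * i else
    (((pre u i.toNat).flatMap fun b => it σ N [b]).length : ℤ)) = c at hp
  have hco := coarse _ _ _ hp R0 hR (by
    have hmono : ∀ i j, i ≤ j → c i ≤ c j := by
      intro i j hij
      have := hp.le_add (r := 0) (fun _ => Nat.zero_le _) i (j - i) (by omega)
      rw [show i + (j - i) = j by ring] at this
      simpa using this
    intro i
    have : ∃ j : ℕ, j < R0 ∧ 2 * R0 ≤ (osub (fun b => it σ N [b]) (2 * R0) (UU u (i + j))).length := by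
      by_cases hi : i < 0
      · exact ⟨0, hR, by simp [UU, hi, osub]⟩
      · obtain ⟨n, rfl⟩ := Int.eq_ofNat_of_zero_le (not_lt.1 hi)
        obtain ⟨j, hj, hG⟩ := hR0 n
        refine ⟨j, hj, ?_⟩
        have e : UU u (n + j) = some (u (n + j)) := by
          rw [← Nat.cast_add]
          unfold UU
          rw [if_neg (by omega), Int.toNat_natCast]
        rw [e]
        simpa [osub] using hN _ hG
    obtain ⟨j, hj, hl⟩ := this
    have a1 := hp.step (i + j)
    have a2 := hmono i (i + j) (by omega)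
    have a3 := hmono (i + j + 1) (i + R0) (by omega)
    omega)
  refine ⟨4 * R0, hco.of_bdd 1 fun n => ?_⟩
  rw [pc_eq, pc_eq, pu_eq, pu_eq]
  push_cast
  rw [abs_le]
  constructor <;> linarith

end Pool.Agent.H149Z.PM
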