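import Pool.Agent.H149Z.PM.St
import Pool.Agent.H149Z.SU.Trec
import Pool.Agent.H149Z.SU.Tuniv
import Pool.Agent.H149Z.SU.Tgood

/-! The recognizability package `PGood` exists (task `pgood` of the plan for `S07589`). -/

set_option autoImplicit false

namespace Pool.Agent.H149Z.PM

open Pool.Agent.H149Z.SU

namespace Tpgood

open Function Tuniv

variable {A B : Type}

theorem iter_parse (X : PSys B) (k : ℕ) : IsParse (it X.τ k) X.V X.c^[k] X.V := by
  induction k with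
  | zero => exact parse_zero X.τ X.V
  | succ k ih =>
    have := ih.comp X.parse
    rw [iterate_succ']
    exact this

theorem it_one (σ : A → List A) (h : ∀ a, 1 ≤ (σ a).length) (k : ℕ) (b : A) :
    1 ≤ (it σ k b).length := by
  induction k with
  | zero => simp [it]
  | succ k ih =>
    simp only [it]
    cases hw : it σ k b with
    | nil => rw [hw] at ih; simp at ih
    | cons x l =>
      have := h x
      simp only [List.flatMap_cons, List.length_append]
      omega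

/-- The descendants of an old stretch. -/
theorem desc {X : PSys B} {Q K : ℕ} (hA : Age X Q K) {z z' : ℤ} (h : X.Old 1 z z') (k : ℕ) :
    ∃ w w', X.Old 1 w w' ∧ X.V w = X.V z ∧ X.V w' = X.V z' ∧ X.c^[k] z ≤ w ∧
      w' < X.c^[k] (z' + 1) ∧ w' - w = z' - z + k * (X.lo (X.V z) + X.fo (X.V z')) := by
  induction k with
  | zero => exact ⟨z, z', h, rfl, rfl, by simp, by simp, by simp⟩
  | succ k ih =>
    obtain ⟨w, w', h1, h2, h3, h4, h5, h6⟩ := ih
    have hs := hA.old_str 1 w w' h1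
    obtain ⟨e1, e2, -⟩ := hA.shape 0 w w' h1
    have a1 := X.l_le w hs.2.1
    have a2 := X.f_lt w' hs.2.2.1
    have a3 := X.mono.monotone h4
    have a4 := X.mono.monotone (show w' + 1 ≤ X.c^[k] (z' + 1) by omega)
    have a5 := hs.2.2.2.cut (t := w') (by have := hs.1; omega) le_rfl
    refine ⟨X.L w, X.F w', ⟨w, w', hs, rfl, rfl⟩, e1.trans h2, e2.trans h3, ?_, ?_, ?_⟩
    · rw [iterate_succ_apply']
      unfold PSys.L
      omega
    · rw [iterate_succ_apply']
      unfold PSys.F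
      omega
    · unfold PSys.L PSys.F
      rw [h2, h3]
      push_cast
      linarith

/-- A stretch none of whose descendants is long is short. -/
theorem stretch_bound {X : PSys B} {Q K : ℕ} (hA : Age X Q K) {z z' : ℤ} (h : X.Str z z')
    {k q : ℕ} (hk : q ≤ k)
    (hn : ∀ s, X.c^[k] z ≤ s → s + q ≤ X.c^[k] (z' + 1) → ¬ X.Fx s (s + q)) :
    z' - z ≤ 3 * K + 1 := by
  by_contra hc
  have ho : X.Old 1 z z' := hA.long_old 1 z z' h (by push_cast; omega)
  obtain ⟨-, -, a, -, -, h1, -⟩ := hA.shape 0 z z' ho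
  obtain ⟨w, w', h2, -, -, h3, h4, h5⟩ := desc hA ho k
  have hs := hA.old_str 1 w w' h2
  by_cases h0 : X.lo (X.V z) + X.fo (X.V z') = 0
  · have b1 : X.lo (X.V z) = 0 := by omega
    have b2 : X.fo (X.V z') = 0 := by omega
    rw [b1, b2] at h1
    simp only [Nat.cast_zero, mul_zero] at h1
    omega
  · have b1 : (1 : ℤ) ≤ X.lo (X.V z) + X.fo (X.V z') := by omega
    have b2 : (k : ℤ) ≤ k * (X.lo (X.V z) + X.fo (X.V z')) := by nlinarith
    exact hn (w + 1) (by omega) (by omega) (hs.2.2.2.mono le_rfl (by omega))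

theorem exists_str (X : PSys B) (t : ℤ) : ∃ z z', z < t ∧ t ≤ z' ∧ X.Str z z' := by
  obtain ⟨z, ⟨h1, h2⟩, h3⟩ := Int.exists_greatest_of_bdd (P := fun z => z ≤ t - 1 ∧ X.G (X.V z))
    ⟨t, fun z hz => by omega⟩ (X.infL (t - 1))
  obtain ⟨z', ⟨h4, h5⟩, h6⟩ := Int.exists_least_of_bdd (P := fun z => t ≤ z ∧ X.G (X.V z))
    ⟨t, fun z hz => hz.1⟩ (X.infR t)
  refine ⟨z, z', by omega, h4, by omega, h2, h5, fun s s1 s2 hs => ?_⟩
  by_cases hc : s < t
  · have := h3 s ⟨by omega, hs⟩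
    omega
  · have := h6 s ⟨by omega, hs⟩
    omega

/-- Growing letters are dense in the preimage of a window without long fixed intervals. -/
theorem dense {X : PSys B} {Q K : ℕ} (hA : Age X Q K) {k q : ℕ} (hk : q ≤ k) (t : ℤ)
    (hn : ∀ s, X.c^[k] (t - q) ≤ s → s + q ≤ X.c^[k] (t + q) → ¬ X.Fx s (s + q)) :
    ∃ g, t ≤ g ∧ g < t + (3 * K + 1) ∧ X.G (X.V g) := by
  obtain ⟨z, z', h1, h2, h3⟩ := exists_str X t
  have hm := (X.iter_mono k).monotone
  have a1 : t - q ≤ z := by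
    by_contra hc
    have b1 : X.Fx (t - q) t := h3.2.2.2.mono (by omega) h2
    obtain ⟨b2, b3, -⟩ := b1.iter (by omega) k
    have b4 := hm (show t ≤ t + q by omega)
    exact hn _ le_rfl (by omega) (b2.mono le_rfl (by omega))
  have a2 : z' + 1 ≤ t + q := by
    by_contra hc
    have b1 : X.Fx t (t + q) := h3.2.2.2.mono (by omega) (by omega)
    obtain ⟨b2, b3, -⟩ := b1.iter (by omega) k
    have b4 := hm (show t - q ≤ t by omega)
    exact hn _ b4 (by omega) (b2.mono le_rfl (by omega))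
  have a3 := stretch_bound hA h3 hk fun s s1 s2 =>
    hn s ((hm a1).trans s1) (s2.trans (hm a2))
  exact ⟨z', h2, by omega, h3.2.2.1⟩

theorem short_pre2 {γ : B → List A} {V : ℤ → B} {d : ℤ → ℤ} {U : ℤ → A}
    (h : IsParse γ V d U) (hr1 : ∀ b, 1 ≤ (γ b).length) {x : ℤ → A} {q : ℕ} (hq : 1 ≤ q)
    (hx : Periodic x q) {a n l l' : ℤ} (ha : Agr x U 0 a n) (hll : l < l') (he : V l = V l')
    (b1 : a ≤ d l) (b2 : d (l' + 1) ≤ a + n) (b6 : d l + q ≤ d (l + 1)) :
    ∃ (z : ℤ → B) (C : ℤ → ℤ), Periodic z (l' - l) ∧ IsParse γ z C x := by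
  have hm := h.strictMono hr1
  have b3 : d l < d l' := hm hll
  have b4 := h.step l'
  have b5 := h.step l
  rw [← he] at b4
  have hA : Agr U U (d l) (d l') (d (l + 1) - d l) :=
    h.agr h hr1 (m := 1) fun t t0 t1 => by
      obtain rfl : t = 0 := by omega
      simpa using he
  have hxD : Periodic x (d l' - d l) := by
    intro t
    have := per_ext (p := d l - a) (q := d l' - a) (by exact_mod_cast hq) hx hx
      (fun s s0 s1 => by
        rw [ha.at (x := d l - a + s) (y := d l + s) (by omega) (by omega) (by omega),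
          ha.at (x := d l' - a + s) (y := d l' + s) (by omega) (by omega) (by omega)]
        exact hA s s0 (by omega)) (t - (d l - a))
    rw [show d l - a + (t - (d l - a)) = t by ring,
      show d l' - a + (t - (d l - a)) = t + (d l' - d l) by ring] at this
    exact this.symm
  let z : ℤ → B := fun t => V (l + t % (l' - l))
  have hz : Periodic z (l' - l) := fun t => by simp [z]
  have hzV : Agr z V 0 l (l' - l) := fun s s0 s1 => by
    simp only [z, zero_add]
    rw [Int.emod_eq_of_lt s0 s1]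
  obtain ⟨C, y, hy, hC⟩ := exists_parse γ hr1 z (d l - a)
  have e1 := hy.cut_eq h hzV (l' - l) (by omega) le_rfl
  rw [zero_add, show l + (l' - l) = l' by ring] at e1
  have hyD := parse_per hy hr1 hz
  have hyU := hy.agr h hr1 hzV
  rw [zero_add, e1] at hyU
  rw [e1] at hyD
  have hxy : y = x := by
    funext t
    have := per_ext (p := C 0) (q := C 0) (by omega) hyD hxD (fun s s0 s1 => by
      rw [hyU s s0 s1, ha.at (x := C 0 + s) (y := d l + s) (by omega) (by omega) (by omega)])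
      (t - C 0)
    simpa using this
  exact ⟨z, C, hz, hxy ▸ hy⟩

/-- A periodic word of the language with a growing letter is the image of a word with a short
period. -/
theorem short_pre [Fintype B] {X : PSys B} {Q K : ℕ} (hA : Age X Q K) {x : ℤ → B} {q k : ℕ}
    (hq : 1 ≤ q) (hk : q ≤ k) (hx : Periodic x q) (hl : ∀ n : ℤ, ∃ a, Agr x X.V 0 a n)
    {t0 : ℤ} (hG : X.G (x t0)) :
    ∃ (z : ℤ → B) (C : ℤ → ℤ),
      Periodic z (((Fintype.card B + 1) * (3 * K + 1)).factorial : ℕ) ∧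
        IsParse (it X.τ k) z C x := by
  classical
  have h := iter_parse X k
  have hr1 := it_one X.τ X.one k
  obtain ⟨M, hM⟩ := Trec.exists_bound (it X.τ k)
  obtain ⟨W, hW⟩ : ∃ W : ℕ, W = (Fintype.card B + 1) * (3 * K + 1) := ⟨_, rfl⟩
  obtain ⟨a, ha⟩ := hl (M * (W + 2 * q + 2 : ℕ))
  obtain ⟨i, hi1, hi2⟩ := h.exists_idx hr1 a
  have hm := (X.iter_mono k).monotone
  have hub := h.add_le hM i (W + 2 * q + 2 : ℕ) (by omega)
  have hn : ∀ s, a ≤ s → s + q ≤ a + M * (W + 2 * q + 2 : ℕ) → ¬ X.Fx s (s + q) := by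
    intro s s1 s2 hF
    have c1 := Int.emod_nonneg (t0 - (s - a)) (show (q : ℤ) ≠ 0 by omega)
    have c2 := Int.emod_lt_of_pos (t0 - (s - a)) (show (0 : ℤ) < q by omega)
    have c3 := per_mod hx (s - a) (t0 - (s - a))
    rw [show s - a + (t0 - (s - a)) = t0 by ring,
      ha.at (x := s - a + (t0 - (s - a)) % q) (y := s + (t0 - (s - a)) % q) (by omega) (by omega)
        (by omega)] at c3
    exact hF (s + (t0 - (s - a)) % q) (by omega) (by omega) (c3 ▸ hG)
  have hd : ∀ j : Fin (Fintype.card B + 1), ∃ g, i + 1 + q + (j : ℕ) * (3 * K + 1) ≤ g ∧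
      g < i + 1 + q + (j : ℕ) * (3 * K + 1) + (3 * K + 1) ∧ X.G (X.V g) := by
    intro j
    have j1 : ((j : ℕ) + 1) * (3 * K + 1) ≤ W := hW ▸ Nat.mul_le_mul_right _ j.2
    have j2 : ((j : ℕ) : ℤ) * (3 * K + 1) + (3 * K + 1) ≤ W := by
      have : (((j : ℕ) + 1) * (3 * K + 1) : ℤ) ≤ W := by exact_mod_cast j1
      linarith
    have j3 : (0 : ℤ) ≤ ((j : ℕ) : ℤ) * (3 * K + 1) := by positivity
    refine dense hA hk _ fun s s1 s2 => hn s ?_ ?_
    · have := hm (show i + 1 ≤ i + 1 + q + (j : ℕ) * (3 * K + 1) - q by omega)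
      omega
    · have := hm (show i + 1 + q + (j : ℕ) * (3 * K + 1) + q ≤ i + (W + 2 * q + 2 : ℕ) by
        push_cast; omega)
      omega
  choose g g1 g2 g3 using hd
  obtain ⟨u, v, huv, he⟩ : ∃ u v : Fin (Fintype.card B + 1), (u : ℕ) < v ∧
      X.V (g u) = X.V (g v) := by
    obtain ⟨u, v, huv, he⟩ := Fintype.exists_ne_map_eq_of_card_lt (fun j => X.V (g j)) (by simp)
    have : (u : ℕ) ≠ v := fun e => huv (Fin.ext e)
    rcases lt_or_gt_of_ne this with hlt | hlt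
    · exact ⟨u, v, hlt, he⟩
    · exact ⟨v, u, hlt, he.symm⟩
  have j1 : ((v : ℕ) + 1) * (3 * K + 1) ≤ W := hW ▸ Nat.mul_le_mul_right _ v.2
  have j2 : ((v : ℕ) : ℤ) * (3 * K + 1) + (3 * K + 1) ≤ W := by
    have : (((v : ℕ) + 1) * (3 * K + 1) : ℤ) ≤ W := by exact_mod_cast j1
    linarith
  have j3 : (0 : ℤ) ≤ ((u : ℕ) : ℤ) * (3 * K + 1) := by positivity
  have j4 : ((u : ℕ) : ℤ) * (3 * K + 1) + (3 * K + 1) ≤ ((v : ℕ) : ℤ) * (3 * K + 1) := by
    have : ((u : ℕ) : ℤ) + 1 ≤ (v : ℕ) := by exact_mod_cast huv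
    nlinarith
  have u1 := g1 u
  have u2 := g2 u
  have v1 := g1 v
  have v2 := g2 v
  have w1 := hm (show i + 1 ≤ g u by omega)
  have w2 := hm (show g v + 1 ≤ i + (W + 2 * q + 2 : ℕ) by push_cast; omega)
  have w3 := X.iter_grow (g3 u) k
  obtain ⟨z, C, h1, h2⟩ := short_pre2 h hr1 hq hx ha (show g u < g v by omega) he (by omega)
    (by omega) (by omega)
  refine ⟨z, C, per_dvd h1 ?_, h2⟩
  obtain ⟨r, hr'⟩ := Int.eq_ofNat_of_zero_le (show 0 ≤ g v - g u by omega)
  rw [hr', ← hW]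
  exact_mod_cast Nat.dvd_factorial (by omega) (by omega)

/-- A periodic word of the language without growing letter. -/
theorem fix_per {X : PSys B} {Q K : ℕ} (hA : Age X Q K) {x : ℤ → B} {q : ℕ}
    (hq : 1 ≤ q) (hx : Periodic x q) (hl : ∀ n : ℤ, ∃ a, Agr x X.V 0 a n)
    (hG : ∀ t, ¬ X.G (x t)) : Periodic x Q := by
  obtain ⟨a, ha⟩ := hl (2 * (q + Q) + 6 * K)
  have hF : X.Fx a (a + (2 * (q + Q) + 6 * K)) := fun t t1 t2 => by
    rw [← ha.at (x := t - a) (y := t) (by omega) (by omega) (by omega)]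
    exact hG _
  obtain ⟨m, h1, h2⟩ := hA.split _ _ hF
  obtain ⟨s, s1, s2, s3⟩ : ∃ s, a ≤ s ∧ s + (q + Q) ≤ a + (2 * (q + Q) + 6 * K) ∧
      Per X.V Q s (s + (q + Q)) := by
    by_cases hc : a + (q + Q) ≤ m - 3 * K
    · exact ⟨a, le_rfl, by omega, h1.mono le_rfl hc⟩
    · exact ⟨a + (q + Q) + 6 * K, by omega, by omega, h2.mono (by omega) (by omega)⟩
  intro t
  have := per_ext (p := s - a + Q) (q := s - a) (by exact_mod_cast hq) hx hx
    (fun r r0 r1 => by
      rw [ha.at (x := s - a + Q + r) (y := s + r + Q) (by omega) (by omega) (by omega),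
        ha.at (x := s - a + r) (y := s + r) (by omega) (by omega) (by omega)]
      exact (s3 (s + r) (by omega) (by omega)).symm) (t - (s - a))
  rwa [show s - a + Q + (t - (s - a)) = t + Q by ring, show s - a + (t - (s - a)) = t by ring]
    at this

/-- All periodic words of the language have a common period. -/
theorem common [Fintype B] {X : PSys B} {Q0 K : ℕ} (hQ0 : 1 ≤ Q0) (hA : Age X Q0 K) :
    ∃ Q : ℕ, 1 ≤ Q ∧ Q0 ∣ Q ∧ ∀ (x : ℤ → B) (q : ℕ), 1 ≤ q →
      Periodic x q → (∀ n : ℤ, ∃ a, Agr x X.V 0 a n) → Periodic x Q := by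
  classical
  choose Cf F hF _ using fun V => exists_parse X.τ X.one V 0
  obtain ⟨L, hLe⟩ : ∃ L : ℕ, L = ((Fintype.card B + 1) * (3 * K + 1)).factorial := ⟨_, rfl⟩
  have hL : (1 : ℤ) ≤ L := by
    rw [hLe]
    exact_mod_cast Nat.factorial_pos _
  have hw : ∀ (z : ℤ → B) (k : ℕ), ∃ C, IsParse X.τ (F^[k] z) C (F^[k + 1] z) := fun z k =>
    ⟨Cf _, by rw [iterate_succ_apply']; exact hF _⟩
  have hfin := finite_per (A := B) _ hL
  have : ∀ z : ℤ → B, ∃ Q : ℕ, 1 ≤ Q ∧ (Periodic z (L : ℤ) →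
      ∀ k k', k < k' → Sh (F^[k] z) (F^[k'] z) → Periodic (F^[k] z) Q) := by
    intro z
    by_cases hz : Periodic z (L : ℤ)
    · obtain ⟨Q, h1, h2⟩ := orbit_per X.τ X.one (fun k => F^[k] z) (hw z) hL hz
      exact ⟨Q, h1, fun _ => h2⟩
    · exact ⟨1, le_rfl, fun h => absurd h hz⟩
  choose Qf Q1 Q2 using this
  refine ⟨Q0 * ∏ z ∈ hfin.toFinset, Qf z,
    Nat.succ_le_of_lt (Nat.mul_pos hQ0 (Finset.prod_pos fun z _ => Q1 z)), Dvd.intro _ rfl,
    fun x q hq hx hl => ?_⟩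
  by_cases hG : ∃ t0, X.G (x t0)
  · obtain ⟨t0, hG⟩ := hG
    have : ∀ k : ℕ, ∃ z : ℤ → B, Periodic z (L : ℤ) ∧ Sh (F^[q + k] z) x := by
      intro k
      obtain ⟨z, C, h1, h2⟩ := short_pre hA hq (show q ≤ q + k by omega) hx hl hG
      obtain ⟨C', h3⟩ := it_parse X.τ (fun k => F^[k] z) (hw z) (q + k)
      exact ⟨z, hLe ▸ h1, parse_sh h3 h2 (it_one X.τ X.one _) (Sh.refl _)⟩
    choose z z1 z2 using this
    obtain ⟨k, k', hk, he⟩ := Set.Finite.exists_lt_map_eq_of_forall_mem (f := z) z1 hfin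
    have h1 := Q2 (z k) (z1 k) (q + k) (q + k') (by omega) ((z2 k).trans (he ▸ (z2 k').symm))
    refine per_dvd ((z2 k).per h1) ?_
    exact_mod_cast Dvd.dvd.mul_left (Finset.dvd_prod_of_mem Qf (hfin.mem_toFinset.2 (z1 k))) Q0
  · refine per_dvd (fix_per hA hq hx hl fun t ht => hG ⟨t, ht⟩) ?_
    exact_mod_cast Dvd.intro _ rfl

theorem univ [Fintype A] {U : ℤ → A} {Q : ℕ} (h : ∀ (x : ℤ → A) (q : ℕ), 1 ≤ q →
    Periodic x q → (∀ n : ℤ, ∃ a, Agr x U 0 a n) → Periodic x Q) (π : ℤ) (hπ : 1 ≤ π) :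
    ∃ N : ℕ, ∀ a b : ℤ, a + N ≤ b → Per U π a b → Per U Q a b := by
  have hfin := finite_per (A := A) π hπ
  have : ∀ x : ℤ → A, ∃ N : ℕ, Periodic x π → ∀ a n : ℤ, (N : ℤ) ≤ n → Agr x U 0 a n →
      Periodic x Q := by
    intro x
    by_cases hl : ∀ n : ℤ, ∃ a, Agr x U 0 a n
    · exact ⟨0, fun hx _ _ _ _ => h x π.toNat (by omega)
        (by rwa [Int.toNat_of_nonneg (by omega)]) hl⟩
    · push Not at hl
      obtain ⟨n0, hn⟩ := hl
      exact ⟨n0.toNat, fun _ a n h1 h2 =>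
        absurd (h2.sub (p' := 0) (q' := a) (n' := n0) le_rfl (by omega) (by omega)) (hn a)⟩
  choose Nf hN using this
  refine ⟨hfin.toFinset.sup Nf, fun a b hab hp => ?_⟩
  let x : ℤ → A := fun t => U (a + t % π)
  have hx : Periodic x π := fun t => by simp [x]
  have hA : Agr x U 0 a (b - a) := by
    refine Agr.of_per hπ (fun s s0 s1 => ?_) (fun t _ _ => (hx t).symm) (by simpa using hp)
    simp only [x, zero_add]
    rw [Int.emod_eq_of_lt s0 s1]
  have hle : Nf x ≤ hfin.toFinset.sup Nf := Finset.le_sup (hfin.mem_toFinset.2 hx)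
  have hQx := hN x hx a (b - a) (by omega) hA
  intro t t0 t1
  rw [← hA.at (x := t - a) (y := t) (by omega) (by omega) (by omega),
    ← hA.at (x := t - a + Q) (y := t + Q) (by omega) (by omega) (by omega), hQx]

theorem exists_Q0 [Fintype B] (X : PSys B) : ∃ Q K : ℕ, PBd X Q K := by
  classical
  obtain ⟨M, hM⟩ := Trec.exists_bound X.τ
  obtain ⟨R, hR⟩ : ∃ R : ℕ, ∀ g, X.fo g ≤ R ∧ X.lo g ≤ R :=
    ⟨Finset.univ.sup fun g => X.fo g + X.lo g, fun g => by
      have : X.fo g + X.lo g ≤ Finset.univ.sup fun g => X.fo g + X.lo g :=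
        Finset.le_sup (f := fun g => X.fo g + X.lo g) (Finset.mem_univ g)
      omega⟩
  refine ⟨R.factorial, M, Nat.factorial_pos _, hM, fun g => ?_, fun g => ?_⟩
  · by_cases h : X.fo g = 0
    · exact Or.inl h
    · exact Or.inr (Nat.dvd_factorial (by omega) (hR g).1)
  · by_cases h : X.lo g = 0
    · exact Or.inl h
    · exact Or.inr (Nat.dvd_factorial (by omega) (hR g).2)

theorem sync (X : PSys B) {K : ℕ} (hK : ∀ b, (X.τ b).length ≤ K)
    (d1 : ∀ i j : ℤ, Agr X.V X.V (X.c i) (X.c j) K → X.V i = X.V j)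
    (d2 : ∀ i j : ℤ, Agr X.V X.V (X.c i - K) (X.c j - K) K → X.V (i - 1) = X.V (j - 1))
    {p q n i j : ℤ} (hA : Agr X.V X.V p q n) (c1 : X.c i - p = X.c j - q) (c2 : p ≤ X.c i)
    (c3 : X.c i ≤ p + n) : PSync X K p q n := by
  obtain ⟨r, r0, r1, r2, r3⟩ := Trec.walkR X.parse X.one hK d1 (p + n - X.c i).toNat
    (p + n - X.c i) i j (by omega) (by omega) (hA.sub (by omega) (by omega) (by omega))
  obtain ⟨l, l0, l1, l2, l3⟩ := Trec.walkL X.parse X.one hK d2 (X.c i - p).toNat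
    (X.c i - p) i j (by omega) (by omega) (hA.sub (by omega) (by omega) (by omega))
  have hV : Agr X.V X.V (i - l) (j - l) (l + r) := by
    intro t t0 t1
    by_cases ht : t < l
    · exact l1 t t0 ht
    · exact r1.at (by omega) (by omega) (by omega)
  have hc := X.cut_at hV (x := i) (y := j) (by omega) (by omega) (by omega)
  refine ⟨i - l, j - l, l + r, by omega, by omega, by omega, by omega, ?_, ?_, hV⟩
  · rw [show i - l + (l + r) = i + r by ring]; omega
  · rw [show i - l + (l + r) = i + r by ring]; omega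

theorem pre (X : PSys B) {K Q : ℕ} (hQ : 1 ≤ Q) (hK : ∀ b, (X.τ b).length ≤ K)
    (d1 : ∀ i j : ℤ, Agr X.V X.V (X.c i) (X.c j) K → X.V i = X.V j) {i j : ℤ}
    (hP : Per X.V Q (X.c i) (X.c j)) :
    ∃ π : ℤ, 1 ≤ π ∧ π ≤ Q ∧ Per X.V π (i + Q) (j - K) := by
  obtain ⟨l1, l2, a1, a2, a3, k, hk⟩ := Trec.pigeon X.c Q (by omega) i
  have b5 : X.c i ≤ X.c l1 := X.mono.monotone a1
  have b6 : X.c l1 < X.c l2 := X.mono a2
  by_cases hL : X.c l2 ≤ X.c j
  · have hk0 : 0 ≤ k := by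
      by_contra hc
      have : (Q : ℤ) * k ≤ 0 := mul_nonpos_of_nonneg_of_nonpos (by omega) (by omega)
      omega
    obtain ⟨k', rfl⟩ := Int.eq_ofNat_of_zero_le hk0
    have hP2 := hP.mul (by omega) k'
    rw [mul_comm] at hk
    have hA : Agr X.V X.V (X.c l1) (X.c l2) (X.c j - X.c l2) := by
      intro t t0 t1
      rw [hP2 _ (by omega) (by omega)]
      congr 1
      omega
    obtain ⟨r, r0, r1, r2, r3⟩ := Trec.walkR X.parse X.one hK d1 (X.c j - X.c l2).toNat
      _ l1 l2 (by omega) (by omega) hA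
    have hc := X.cut_at r1 (x := l1 + r) (y := l2 + r) (by omega) (by omega) (by omega)
    have b7 : j - K ≤ l2 + r := by
      by_contra hc3
      have := X.lb (i := l2 + r) (j := j) (by omega)
      omega
    exact ⟨l2 - l1, by omega, by omega, fun t t0 t1 => r1.at (by omega) (by omega) (by omega)⟩
  · have b8 : j < l2 := X.mono.lt_iff_lt.mp (by omega)
    exact ⟨1, le_rfl, by omega, fun t t0 t1 => by omega⟩

theorem img (X : PSys B) {Q M N : ℕ} (hQ : 1 ≤ Q) (hM : ∀ a, (X.τ a).length ≤ M)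
    (hN : ∀ π : ℤ, 1 ≤ π → π ≤ (M * Q : ℕ) → ∀ a b : ℤ, a + N ≤ b → Per X.V π a b →
      Per X.V Q a b) {i j : ℤ} (h1 : i + Q ≤ j) (h2 : i + N ≤ j)
    (h : Per X.V Q i j) : Per X.V Q (X.c i) (X.c j) := by
  have hA : Agr X.V X.V i (i + Q) (j - i - Q) := by
    intro t h0 ht
    rw [h (i + t) (by omega) (by omega)]
    congr 1
    ring
  have hB := X.agr hA
  have hcut := X.cut_at hA (x := i + (j - i - Q)) (y := j) (by omega) (by omega) (by omega)
  have b1 := X.lb (show i ≤ i + Q by omega)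
  have b2 := X.parse.add_le hM i Q (by omega)
  have b3 := X.lb (show i ≤ j by omega)
  refine hN (X.c (i + Q) - X.c i) (by omega) (by push_cast; omega) _ _ (by omega) ?_
  intro t a1 a2
  exact hB.at (by omega) (by omega) (by omega)

end Tpgood

theorem thm_pgood (h1 : S_elem) (h2 : S_age) : S_pgood := by
  intro B _ X hel
  obtain ⟨Q0, M, hB⟩ := Tpgood.exists_Q0 X
  obtain ⟨Q, hQ, hd, hc⟩ := Tpgood.common hB.Qpos (h2 B X Q0 M hB)
  have hN := Tpgood.univ hc
  obtain ⟨K0, P, hE⟩ := h1 B B X.τ hel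
  obtain ⟨e1, e2, e3⟩ := hE X.V X.V _ _ X.V X.V X.parse X.parse
  obtain ⟨N1, hN1⟩ := Tgood.univB hN P
  obtain ⟨N2, hN2⟩ := Tgood.univB hN (M * Q)
  obtain ⟨N3, hN3⟩ := Tgood.univB hN Q
  obtain ⟨K, hK⟩ : ∃ K : ℕ, K = K0 + M + N1 + N2 + N3 + Q := ⟨_, rfl⟩
  have hM : ∀ b, (X.τ b).length ≤ K0 + M := fun b => (hB.len_le b).trans (by omega)
  have hM' : ∀ b, (X.τ b).length ≤ K := fun b => (hB.len_le b).trans (by omega)
  have d1 : ∀ (R : ℕ), K0 ≤ R → ∀ i j : ℤ, Agr X.V X.V (X.c i) (X.c j) R → X.V i = X.V j :=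
    fun R hR i j hA => e1 i j (hA.sub le_rfl (by omega) (by omega))
  have d2 : ∀ i j : ℤ, Agr X.V X.V (X.c i - K) (X.c j - K) K → X.V (i - 1) = X.V (j - 1) :=
    fun i j hA => e2 i j (hA.sub (by omega) (by omega) (by omega))
  refine ⟨Q, K, ⟨hQ, hM', fun g => ?_, fun g => ?_⟩, ?_, ?_, ?_, ?_, ?_⟩
  · exact (hB.dvd_fo g).imp id fun h => h.trans hd
  · exact (hB.dvd_lo g).imp id fun h => h.trans hd
  · intro p q n hA
    rcases e3 p q n hA with ⟨i, j, c1, c2, c3⟩ | ⟨π, p1, p2, p3⟩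
    · exact Or.inl (Tpgood.sync X hM' (d1 K (by omega)) d2 hA c1 c2 c3)
    · exact Or.inr ((Tgood.trim (hN1 π p1 p2) p3).mono (by omega) (by omega))
  · intro i j hij h
    exact Tpgood.img X hQ hB.len_le hN2 (by omega) (by omega) h
  · intro i j h
    obtain ⟨π, p1, p2, p3⟩ := Tpgood.pre X hQ hM (d1 _ (by omega)) h
    exact (Tgood.trim (hN3 π p1 p2) p3).mono (by omega) (by push_cast; omega)
  · exact fun i j hne h => hne (d2 i j h)
  · exact fun i j hne h => hne (d1 K (by omega) i j h)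

end Pool.Agent.H149Z.PM
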