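import Pool.Agent.H149Z.PM.St

/-! Desubstitution of a family of three occurrences down to a root of bounded length. -/

set_option autoImplicit false

namespace Pool.Agent.H149Z.PM

open Pool.Agent.H149Z.SU

namespace Troot

variable {B : Type}

theorem exists_fork (P : ℕ → Prop) (M : ℕ) (h0 : P 0) (hM : ¬ P M) :
    ∃ j, j < M ∧ P j ∧ ¬ P (j + 1) := by
  induction M with
  | zero => exact absurd h0 hM
  | succ M ih =>
    by_cases h : P M
    · exact ⟨M, by omega, h, hM⟩
    · obtain ⟨j, a, b, c⟩ := ih h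
      exact ⟨j, by omega, b, c⟩

/-- Three occurrences of one word that branch on both sides. -/
structure Fam (X : PSys B) (p : Fin 3 → ℤ) (n : ℤ) : Prop where
  com : ∀ j j', Agr X.V X.V (p j) (p j') n
  left : ∃ j j', X.V (p j - 1) ≠ X.V (p j' - 1)
  right : ∃ j j', X.V (p j + n) ≠ X.V (p j' + n)

theorem parent {X : PSys B} {Q K K' : ℕ} (G : PGood X Q K) (hK : K ≤ K') {p : Fin 3 → ℤ} {n : ℤ}
    (F : Fam X p n) (hn : 4 * (K : ℤ) ≤ n) (hP : ¬ Per X.V Q (p 0 + K') (p 0 + n - K')) :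
    ∃ (p' : Fin 3 → ℤ) (n' : ℤ) (e1 e2 : ℕ), Fam X p' n' ∧ 0 ≤ n' ∧ e1 ≤ K ∧ e2 ≤ K ∧
      ∀ j, p j = X.c (p' j) - e1 ∧ p j + n = X.c (p' j + n') + e2 := by
  obtain ⟨l, h1, h2⟩ := X.idx (p 0 + K - 1)
  obtain ⟨i1, h3, h4⟩ := X.idx (p 0 + n - K)
  have u1 := G.toPBd.ub (show l ≤ l + 1 by omega)
  have u2 := G.toPBd.ub (show i1 ≤ i1 + 1 by omega)
  rw [show l + 1 - l = 1 by ring, mul_one] at u1
  rw [show i1 + 1 - i1 = 1 by ring, mul_one] at u2
  have h5 : l + 1 < i1 + 1 := X.mono.lt_iff_lt.mp (by omega)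
  obtain ⟨m, hm⟩ : ∃ m : ℤ, m = i1 - (l + 1) := ⟨_, rfl⟩
  obtain ⟨a, ha⟩ : ∃ a : ℤ, a = X.c (l + 1) - p 0 := ⟨_, rfl⟩
  obtain ⟨b, hb⟩ : ∃ b : ℤ, b = p 0 + n - X.c i1 := ⟨_, rfl⟩
  have all : ∀ j, ∃ i, X.c i - a = p j ∧ Agr X.V X.V i (l + 1) m := by
    intro j
    rcases G.sync (p 0) (p j) n (F.com 0 j) with ⟨i, j', m', c0, c1, c2, c3, c4, c5, c6⟩ | hper
    · have d1 : i ≤ l + 1 := X.mono.le_iff_le.mp (by omega)
      have d2 : i1 ≤ i + m' := X.mono.le_iff_le.mp (by omega)
      have d3 := X.cut_at c6 (x := l + 1) (y := j' + (l + 1 - i)) d1 (by omega) (by omega)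
      exact ⟨j' + (l + 1 - i), by omega, c6.symm.sub (by omega) (by omega) (by omega)⟩
    · exact absurd (hper.mono (by omega) (by omega)) hP
  choose I hI hA using all
  have len : ∀ j, X.c (I j + m) + b = p j + n := by
    intro j
    have := X.cut_at (hA j) (x := I j + m) (y := i1) (by omega) (by omega) (by omega)
    have := hI j
    omega
  obtain ⟨j1, c1, c2, c3⟩ := exists_fork
    (fun e : ℕ => ∀ x y, Agr X.V X.V (I x - e) (I y - e) e) (2 * K)
    (fun _ _ t x y => by omega) (by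
      intro hc
      obtain ⟨x, y, hne⟩ := F.left
      have d1 := hc x y
      have d2 := X.agr d1
      have d3 := X.cut_at d1 (x := I x) (y := I y) (by omega) (by omega) (by omega)
      have d4 := X.lb (show I x - (2 * K : ℕ) ≤ I x by omega)
      rw [show I x - (2 * K : ℕ) + (2 * K : ℕ) = I x by ring] at d2
      have := hI x
      have := hI y
      exact hne (d2.at (by omega) (by omega) (by omega)))
  obtain ⟨j2, d1, d2, d3⟩ := exists_fork
    (fun e : ℕ => ∀ x y, Agr X.V X.V (I x + m) (I y + m) e) (2 * K)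
    (fun _ _ t x y => by omega) (by
      intro hc
      obtain ⟨x, y, hne⟩ := F.right
      have d1 := hc x y
      have d2 := X.agr d1
      have d4 := X.lb (show I x + m ≤ I x + m + (2 * K : ℕ) by omega)
      have := len x
      have := len y
      exact hne (d2.at (by omega) (by omega) (by omega)))
  have com : ∀ x y, Agr X.V X.V (I x - j1) (I y - j1) (m + j1 + j2) := by
    intro x y t t0 t1
    by_cases q1 : t < j1
    · exact c2 x y t t0 q1
    · by_cases q2 : t < j1 + m
      · exact ((hA x).trans (hA y).symm).at (by omega) (by omega) (by omega)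
      · exact (d2 x y).at (by omega) (by omega) (by omega)
  have left : ∃ x y, X.V (I x - j1 - 1) ≠ X.V (I y - j1 - 1) := by
    by_contra hc
    push Not at hc
    apply c3
    intro x y t t0 t1
    by_cases q : t = 0
    · have := hc x y
      rw [q]
      push_cast
      rwa [show I x - (j1 + 1) + 0 = I x - j1 - 1 by ring,
        show I y - (j1 + 1) + 0 = I y - j1 - 1 by ring]
    · exact (c2 x y).at (by omega) (by omega) (by omega)
  have right : ∃ x y, X.V (I x - j1 + (m + j1 + j2)) ≠ X.V (I y - j1 + (m + j1 + j2)) := by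
    by_contra hc
    push Not at hc
    apply d3
    intro x y t t0 t1
    by_cases q : t = j2
    · have := hc x y
      rw [q]
      rwa [show I x - j1 + (m + j1 + j2) = I x + m + j2 by ring,
        show I y - j1 + (m + j1 + j2) = I y + m + j2 by ring] at this
    · exact d2 x y t t0 (by omega)
  have k1 : ∀ x y, X.c (I x) - X.c (I x - j1) = X.c (I y) - X.c (I y - j1) := fun x y =>
    X.cut_at (com x y) (x := I x) (y := I y) (by omega) (by omega) (by omega)
  have k2 : ∀ x y, X.c (I x - j1 + (m + j1 + j2)) - X.c (I x - j1) =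
      X.c (I y - j1 + (m + j1 + j2)) - X.c (I y - j1) := fun x y =>
    X.cut_at (com x y) (by omega) (by omega) (by omega)
  have k3 := fun x y => X.agr (com x y)
  have k4 : ∀ x, X.c (I x - j1) ≤ X.c (I x) ∧ X.c (I x) ≤ X.c (I x + m) ∧
      X.c (I x + m) ≤ X.c (I x - j1 + (m + j1 + j2)) := fun x =>
    ⟨X.mono.monotone (by omega), X.mono.monotone (by omega), X.mono.monotone (by omega)⟩
  obtain ⟨x1, y1, hne1⟩ := F.left
  obtain ⟨x2, y2, hne2⟩ := F.right
  have l1 : p x1 ≤ X.c (I x1 - j1) := by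
    by_contra hc
    have := k1 x1 y1
    have := k4 x1
    have := hI x1
    have := hI y1
    exact hne1 ((k3 x1 y1).at (by omega) (by omega) (by omega))
  have l2 : X.c (I x2 - j1 + (m + j1 + j2)) ≤ p x2 + n := by
    by_contra hc
    have := k1 x2 y2
    have := k4 x2
    have := len x2
    have := hI x2
    have := hI y2
    exact hne2 ((k3 x2 y2).at (by omega) (by omega) (by omega))
  obtain ⟨e1, he1⟩ := Int.eq_ofNat_of_zero_le (show 0 ≤ X.c (I x1 - j1) - p x1 by omega)
  obtain ⟨e2, he2⟩ :=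
    Int.eq_ofNat_of_zero_le (show 0 ≤ p x2 + n - X.c (I x2 - j1 + (m + j1 + j2)) by omega)
  have f1 : ∀ x, p x = X.c (I x - j1) - e1 := by
    intro x
    have := k1 x x1
    have := hI x
    have := hI x1
    omega
  have f2 : ∀ x, p x + n = X.c (I x - j1 + (m + j1 + j2)) + e2 := by
    intro x
    have := k2 x x2
    have := f1 x
    have := f1 x2
    omega
  refine ⟨fun x => I x - j1, m + j1 + j2, e1, e2, ⟨com, left, right⟩, by omega, ?_, ?_,
    fun x => ⟨f1 x, f2 x⟩⟩
  · by_contra hc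
    obtain ⟨x, y, hne⟩ := left
    have := f1 x
    have := f1 y
    have := f2 x
    have := k4 x
    exact G.delayL (I x - j1) (I y - j1) hne ((F.com x y).sub (by omega) (by omega) (by omega))
  · by_contra hc
    obtain ⟨x, y, hne⟩ := right
    have := f1 x
    have := f2 x
    have := f2 y
    have := k4 x
    exact G.delayR _ _ hne ((F.com x y).sub (by omega) (by omega) (by omega))

theorem two_sided {X : PSys B} {Q K5 : ℕ} (hL : LE1 X Q K5) (hR : LE1 X.rev Q K5) (R : ℕ) :
    ∃ N : ℕ, ∀ (p : Fin 3 → ℤ) (n : ℤ), Fam X p n → (N : ℤ) ≤ n →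
      Per X.V Q (p 0 + R) (p 0 + n - R) → Per X.V Q (p 0 + K5) (p 0 + n - K5) := by
  obtain ⟨NL, hNL⟩ := hL R
  obtain ⟨NR, hNR⟩ := hR R
  refine ⟨NL + NR + 2 * R + K5, fun p n F hn hP => ?_⟩
  push_cast at hn
  obtain ⟨q, hq⟩ : ∃ q, X.V (p 0 - 1) ≠ X.V (p q - 1) := by
    obtain ⟨x, y, hne⟩ := F.left
    by_cases e : X.V (p 0 - 1) = X.V (p x - 1)
    · exact ⟨y, e ▸ hne⟩
    · exact ⟨x, e⟩
  obtain ⟨r, hr⟩ : ∃ r, X.V (p 0 + n) ≠ X.V (p r + n) := by
    obtain ⟨x, y, hne⟩ := F.right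
    by_cases e : X.V (p 0 + n) = X.V (p x + n)
    · exact ⟨y, e ▸ hne⟩
    · exact ⟨x, e⟩
  have a1 := hNL (p 0) (p q) R (p 0 + n - R) (by omega) le_rfl (by omega)
    ((F.com 0 q).sub (by omega) (by omega) (by omega)) hq hP
  have a2 := hNR (-(p 0 + n)) (-(p r + n)) R (-(p 0 + K5)) (by omega) le_rfl (by omega)
    (X.rev_agr.2 ((F.com 0 r).sub (by omega) (by omega) (by omega)))
    (by
      rw [X.rev_V, X.rev_V, show -1 - (-(p 0 + n) - 1) = p 0 + n by ring,
        show -1 - (-(p r + n) - 1) = p r + n by ring]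
      exact hr)
    (X.rev_per.2 (a1.mono (by omega) (by omega)))
  exact (X.rev_per.1 a2).mono (by omega) (by omega)

theorem c_pos (X : PSys B) {i : ℤ} (h : 1 ≤ i) : i + 1 ≤ X.c i := by
  have h1 := X.step_G X.G0
  have h2 := X.lb h
  have h3 := X.c0
  rw [zero_add] at h1
  omega

theorem c_neg (X : PSys B) {i : ℤ} (h : i ≤ -1) : X.c i ≤ i - 1 := by
  have h1 := X.step_G X.G1
  have h2 := X.lb h
  have h3 := X.c0
  rw [show (-1 : ℤ) + 1 = 0 by ring] at h1
  omega

theorem extend {X : PSys B} {K k : ℕ} {P : Fin 3 → ℕ → ℤ} {N : ℕ → ℤ} (C : FChain X K k P N)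
    {p : Fin 3 → ℤ} {n : ℤ} (F : Fam X p n) {e1 e2 : ℕ} (h1 : e1 ≤ K) (h2 : e2 ≤ K)
    (h : ∀ j, p j = X.c (P j k) - e1 ∧ p j + n = X.c (P j k + N k) + e2) :
    FChain X K (k + 1) (fun j i => if i ≤ k then P j i else p j)
      (fun i => if i ≤ k then N i else n) where
  com := by
    intro i _ j j'
    by_cases q : i ≤ k
    · simp only [if_pos q]; exact C.com i q j j'
    · simp only [if_neg q]; exact F.com j j'
  forkL := by
    intro i _
    by_cases q : i ≤ k
    · simp only [if_pos q]; exact C.forkL i q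
    · simp only [if_neg q]; exact F.left
  forkR := by
    intro i _
    by_cases q : i ≤ k
    · simp only [if_pos q]; exact C.forkR i q
    · simp only [if_neg q]; exact F.right
  step := by
    intro i hi
    by_cases q : i < k
    · simp only [if_pos (show i + 1 ≤ k by omega), if_pos (show i ≤ k by omega)]
      exact C.step i q
    · obtain rfl : i = k := by omega
      simp only [if_neg (show ¬ i + 1 ≤ i by omega), if_pos (le_refl i)]
      exact ⟨e1, e2, h1, h2, h⟩

end Troot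

open Troot in
theorem thm_root : S_root := by
  intro B X Q K K5 K' G hL hR hK5 hK
  obtain ⟨N, hN⟩ := two_sided hL hR (K + K * K')
  refine ⟨N + 5 * K + 2 * K' + 1, fun N1 hN1 => ?_⟩
  have key : ∀ (μ : ℕ) (p0 : Fin 3 → ℤ) (n0 : ℤ), (p0 0 + n0).toNat + (-(p0 0)).toNat = μ →
      Fam X p0 n0 → (N1 : ℤ) ≤ n0 → ¬ Per X.V Q (p0 0 + K') (p0 0 + n0 - K') →
      ∃ (k : ℕ) (p : Fin 3 → ℕ → ℤ) (n : ℕ → ℤ), FChain X K k p n ∧ (∀ j, p j k = p0 j) ∧
        n k = n0 ∧ (N1 : ℤ) ≤ n 0 ∧ n 0 ≤ K * N1 + 2 * K ∧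
        ¬ Per X.V Q (p 0 0 + K') (p 0 0 + n 0 - K') := by
    intro μ
    induction μ using Nat.strong_induction_on with
    | _ μ ih =>
    intro p0 n0 hμ F hn hP
    by_cases hs : n0 ≤ K * N1 + 2 * K
    · exact ⟨0, fun j _ => p0 j, fun _ => n0,
        ⟨fun _ _ => F.com, fun _ _ => F.left, fun _ _ => F.right, fun i hi => by omega⟩,
        fun _ => rfl, rfl, hn, hs, hP⟩
    obtain ⟨p', n', e1, e2, F', h0, h1, h2, h⟩ := parent G hK F (by omega) hP
    obtain ⟨g1, g2⟩ := h 0
    have u := G.toPBd.ub (show p' 0 ≤ p' 0 + n' by omega)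
    rw [show p' 0 + n' - p' 0 = n' by ring] at u
    have hn' : (N1 : ℤ) ≤ n' := by
      by_contra hc
      have : (K : ℤ) * n' ≤ K * N1 := mul_le_mul_of_nonneg_left (by omega) (by omega)
      omega
    have hP' : ¬ Per X.V Q (p' 0 + K') (p' 0 + n' - K') := by
      intro hc
      apply hP
      have a1 := G.per_img _ _ (by omega) hc
      have a2 := G.toPBd.ub (show p' 0 ≤ p' 0 + K' by omega)
      have a3 := G.toPBd.ub (show p' 0 + n' - K' ≤ p' 0 + n' by omega)
      rw [show p' 0 + K' - p' 0 = K' by ring] at a2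
      rw [show p' 0 + n' - (p' 0 + n' - K') = K' by ring] at a3
      have := hN p0 n0 F (by omega) (a1.mono (by push_cast; omega) (by push_cast; omega))
      exact this.mono (by omega) (by omega)
    have hlt : (p' 0 + n').toNat + (-(p' 0)).toNat < μ := by
      have s1 := c_pos X (i := p' 0 + n')
      have s2 := c_neg X (i := p' 0)
      omega
    obtain ⟨k, P, Nn, C, c1, c2, c3, c4, c5⟩ := ih _ hlt p' n' rfl F' hn' hP'
    refine ⟨k + 1, _, _, extend C F h1 h2 (fun j => by rw [c1, c2]; exact h j), ?_, ?_, ?_, ?_, ?_⟩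
    · intro j
      simp
    · simp
    · simpa using c3
    · simpa using c4
    · simpa using c5
  intro p0 n0 a b c d e
  exact key _ p0 n0 rfl ⟨a, b, c⟩ d e

end Pool.Agent.H149Z.PM
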